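import Mathlib

/-!
Every finite vertex-transitive digraph with out-degree `d` and girth `g > 3` that is not an
iterated lexicographic product of the Cayley digraphs of the integers mod `n` with connection set
`{1, ..., d}` (or empty) has at least `(d+1)(g-1)-1` vertices.

Outline of the proof.  Write `C F` for the closed out-neighbourhood of a vertex set `F`; the
function `|C F| - |F|` is submodular.  If it is smaller than `d` for some proper fragment, then the
smallest fragments (atoms) of the digraph or of its reverse form a system of blocks.  A counting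
theorem for pairs of sets (`kprime`) gives Hamidoune's bound `d(g-1)+1` (`thmH`), and the fact that
the boundary of a block has size divisible by the size of the block (`block_dvd`) then forces the
digraph to be a lexicographic product (`caseB`, `lex_lemma`).  Otherwise balls around vertices give
fragments of size at least two with boundary `d`; a smallest one is shown to have exactly two
elements (`atom2`), so the digraph has two vertices with the same out-neighbourhood (`twins`) or it
is a Cayley digraph of a cyclic group with connection set `{1, ..., d}` (`caseC`).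
-/

set_option linter.unusedSectionVars false

namespace Pool.Agent.Results.MP_81f9fb_co.GirthBound

/-- A digraph on the vertex set `V`, given by its arc relation (arcs are not repeated). -/
abbrev Arcs (V : Type) := V → V → Prop

/-- Some automorphism carries any given vertex to any other given vertex. -/
def VertexTransitive {V : Type} (X : Arcs V) : Prop :=
  ∀ u v, ∃ φ : Equiv.Perm V, (∀ x y, X (φ x) (φ y) ↔ X x y) ∧ φ u = v

/-- The out-degree of the vertex `v`. -/
noncomputable def outdeg {V : Type} (X : Arcs V) (v : V) : ℕ := {w | X v w}.ncard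

/-- `X` has a directed cycle with exactly `l` vertices, where `l` is positive
(a loop counts as a directed cycle with one vertex). -/
def HasCycle {V : Type} (X : Arcs V) (l : ℕ) : Prop :=
  0 < l ∧ ∃ c : ZMod l → V, Function.Injective c ∧ ∀ i, X (c i) (c (i + 1))

/-- `g` is the length of a shortest directed cycle of `X`. -/
def IsGirth {V : Type} (X : Arcs V) (g : ℕ) : Prop := IsLeast {l | HasCycle X l} g

/-- The Cayley digraph of the integers mod `n` with connection set `{1, ..., d}`; for `d = 0` the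
connection set is empty. -/
def circ (n d : ℕ) : Arcs (ZMod n) :=
  fun x y => ∃ k : ℕ, 1 ≤ k ∧ k ≤ d ∧ y = x + (k : ZMod n)

/-- The lexicographic product `X[Y]`. -/
def lexProd {V W : Type} (X : Arcs V) (Y : Arcs W) : Arcs (V × W) :=
  fun p q => X p.1 q.1 ∨ (p.1 = q.1 ∧ Y p.2 q.2)

/-- The iterated lexicographic products `X_1[X_2[...[X_k]...]]` with `k ≥ 1` whose factors are
digraphs `circ n d` with `d < n` (so that `0` is not in the connection set and `n ≥ 1`). -/
inductive IterLex : (V : Type) → Arcs V → Prop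
  | base (n d : ℕ) (h : d < n) : IterLex (ZMod n) (circ n d)
  | step (n d : ℕ) (h : d < n) (W : Type) (Y : Arcs W) (hY : IterLex W Y) :
      IterLex (ZMod n × W) (lexProd (circ n d) Y)

/-- The class `L`: digraphs isomorphic to an iterated lexicographic product as above. -/
def InL {V : Type} (X : Arcs V) : Prop :=
  ∃ (W : Type) (Y : Arcs W), IterLex W Y ∧ ∃ e : V ≃ W, ∀ x y, X x y ↔ Y (e x) (e y)

universe u

open Finset Classical

section Part1

variable {V : Type u} [Fintype V]

/-- out-neighbourhood -/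
noncomputable def Nb (A : V → V → Prop) (x : V) : Finset V := univ.filter (fun y => A x y)

/-- closed out-neighbourhood of a set -/
noncomputable def C (A : V → V → Prop) (F : Finset V) : Finset V :=
  univ.filter (fun y => y ∈ F ∨ ∃ x ∈ F, A x y)

/-- reversed relation -/
def fl {V : Type u} (A : V → V → Prop) : V → V → Prop := fun x y => A y x

def IsAut {V : Type u} (A : V → V → Prop) (φ : Equiv.Perm V) : Prop :=
  ∀ x y, A (φ x) (φ y) ↔ A x y

def VT {V : Type u} (A : V → V → Prop) : Prop :=
  ∀ u v, ∃ φ : Equiv.Perm V, IsAut A φ ∧ φ u = v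

def Reg (A : V → V → Prop) (d : ℕ) : Prop := ∀ v, (Nb A v).card = d

def Conn (A : V → V → Prop) (k : ℕ) : Prop :=
  ∀ F : Finset V, F.Nonempty → C A F ≠ univ → F.card + k ≤ (C A F).card

@[simp] theorem mem_Nb (A : V → V → Prop) (x y : V) : y ∈ Nb A x ↔ A x y := by
  simp [Nb]

@[simp] theorem mem_C (A : V → V → Prop) (F : Finset V) (y : V) :
    y ∈ C A F ↔ y ∈ F ∨ ∃ x ∈ F, A x y := by
  simp [C]

theorem subset_C (A : V → V → Prop) (F : Finset V) : F ⊆ C A F := by
  intro y hy; simp [hy]

theorem C_mono (A : V → V → Prop) {F G : Finset V} (h : F ⊆ G) : C A F ⊆ C A G := by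
  intro y hy
  rw [mem_C] at hy ⊢
  rcases hy with hy | ⟨x, hx, hxy⟩
  · exact Or.inl (h hy)
  · exact Or.inr ⟨x, h hx, hxy⟩

theorem C_union (A : V → V → Prop) (F G : Finset V) : C A (F ∪ G) = C A F ∪ C A G := by
  ext y
  simp only [mem_C, mem_union]
  constructor
  · rintro ((h | h) | ⟨x, (hx | hx), hxy⟩)
    · exact Or.inl (Or.inl h)
    · exact Or.inr (Or.inl h)
    · exact Or.inl (Or.inr ⟨x, hx, hxy⟩)
    · exact Or.inr (Or.inr ⟨x, hx, hxy⟩)
  · rintro ((h | ⟨x, hx, hxy⟩) | (h | ⟨x, hx, hxy⟩))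
    · exact Or.inl (Or.inl h)
    · exact Or.inr ⟨x, Or.inl hx, hxy⟩
    · exact Or.inl (Or.inr h)
    · exact Or.inr ⟨x, Or.inr hx, hxy⟩

theorem submod (A : V → V → Prop) (F G : Finset V) :
    (C A (F ∩ G)).card + (C A (F ∪ G)).card ≤ (C A F).card + (C A G).card := by
  have h1 : C A (F ∩ G) ⊆ C A F ∩ C A G := by
    intro y hy
    exact mem_inter.2 ⟨C_mono A inter_subset_left hy, C_mono A inter_subset_right hy⟩
  have h2 := card_le_card h1
  rw [C_union]
  have h3 := card_union_add_card_inter (C A F) (C A G)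
  omega

theorem disj_C (A : V → V → Prop) {F G : Finset V} (h1 : Disjoint F G)
    (h2 : ∀ x ∈ F, ∀ y ∈ G, ¬ A x y) : Disjoint (C A F) G := by
  rw [Finset.disjoint_left] at h1 ⊢
  intro y hy hyG
  rw [mem_C] at hy
  rcases hy with hy | ⟨x, hx, hxy⟩
  · exact h1 hy hyG
  · exact h2 x hx y hyG hxy

theorem disj_C_fl (A : V → V → Prop) (F : Finset V) : Disjoint (C (fl A) (univ \ C A F)) F := by
  apply disj_C
  · rw [Finset.disjoint_left]
    intro y hy hyF
    simp only [mem_sdiff, mem_univ, true_and] at hy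
    exact hy (subset_C A F hyF)
  · intro x hx y hy hxy
    simp only [mem_sdiff, mem_univ, true_and] at hx
    apply hx
    rw [mem_C]
    exact Or.inr ⟨y, hy, hxy⟩

theorem card_disj {F G : Finset V} (h : Disjoint F G) : F.card + G.card ≤ Fintype.card V := by
  rw [← card_union_of_disjoint h]
  exact card_le_univ _

theorem Conn_fl (A : V → V → Prop) (k : ℕ) (h : Conn A k) : Conn (fl A) k := by
  intro F hF hne
  set G := univ \ C (fl A) F with hG
  have hGne : G.Nonempty := by
    rw [hG, Finset.sdiff_nonempty]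
    intro hs
    exact hne (Finset.univ_subset_iff.1 hs)
  have hd : Disjoint (C A G) F := disj_C_fl (fl A) F
  have h1 : C A G ≠ univ := by
    intro he
    rw [he] at hd
    obtain ⟨x, hx⟩ := hF
    exact Finset.disjoint_left.1 hd (mem_univ x) hx
  have h2 := h G hGne h1
  have h3 := card_disj hd
  have h4 : G.card = Fintype.card V - (C (fl A) F).card := by
    rw [hG, card_sdiff_of_subset (subset_univ _), card_univ]
  have h5 : (C (fl A) F).card ≤ Fintype.card V := card_le_univ _
  omega

theorem IsAut_fl {A : V → V → Prop} {φ : Equiv.Perm V} (h : IsAut A φ) : IsAut (fl A) φ :=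
  fun x y => h y x

theorem VT_fl {A : V → V → Prop} (h : VT A) : VT (fl A) := by
  intro u v
  obtain ⟨φ, h1, h2⟩ := h u v
  exact ⟨φ, IsAut_fl h1, h2⟩

theorem IsAut_symm {A : V → V → Prop} {φ : Equiv.Perm V} (h : IsAut A φ) : IsAut A φ.symm := by
  intro x y
  have := h (φ.symm x) (φ.symm y)
  simpa using this.symm

theorem C_image {A : V → V → Prop} {φ : Equiv.Perm V} (h : IsAut A φ) (F : Finset V) :
    C A (F.image φ) = (C A F).image φ := by
  ext y
  simp only [mem_C, mem_image]
  constructor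
  · rintro (⟨x, hx, rfl⟩ | ⟨x, ⟨z, hz, rfl⟩, hxy⟩)
    · exact ⟨x, Or.inl hx, rfl⟩
    · refine ⟨φ.symm y, Or.inr ⟨z, hz, ?_⟩, by simp⟩
      rw [← h]; simpa using hxy
  · rintro ⟨x, (hx | ⟨z, hz, hzx⟩), rfl⟩
    · exact Or.inl ⟨x, hx, rfl⟩
    · exact Or.inr ⟨φ z, ⟨z, hz, rfl⟩, (h z x).2 hzx⟩

/-- an invariant relation on a vertex-transitive digraph has equal out- and in-counts -/
theorem inout {A : V → V → Prop} (hVT : VT A) (ρ : V → V → Prop)
    (hρ : ∀ φ, IsAut A φ → ∀ x y, ρ (φ x) (φ y) ↔ ρ x y) (x y : V) :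
    (univ.filter (fun z => ρ x z)).card = (univ.filter (fun z => ρ z y)).card := by
  have hout : ∀ a b : V, (univ.filter (fun z => ρ a z)).card = (univ.filter (fun z => ρ b z)).card := by
    intro a b
    obtain ⟨φ, h1, h2⟩ := hVT a b
    refine Finset.card_bij (fun z _ => φ z) ?_ ?_ ?_
    · intro z hz
      simp only [mem_filter, mem_univ, true_and] at hz ⊢
      rw [← h2]; exact (hρ φ h1 a z).2 hz
    · intro z _ w _ hzw
      exact φ.injective hzw
    · intro w hw
      simp only [mem_filter, mem_univ, true_and] at hw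
      refine ⟨φ.symm w, ?_, by simp⟩
      simp only [mem_filter, mem_univ, true_and]
      rw [← hρ φ h1, h2]; simpa using hw
  have hin : ∀ a b : V, (univ.filter (fun z => ρ z a)).card = (univ.filter (fun z => ρ z b)).card := by
    intro a b
    obtain ⟨φ, h1, h2⟩ := hVT a b
    refine Finset.card_bij (fun z _ => φ z) ?_ ?_ ?_
    · intro z hz
      simp only [mem_filter, mem_univ, true_and] at hz ⊢
      rw [← h2]; exact (hρ φ h1 z a).2 hz
    · intro z _ w _ hzw
      exact φ.injective hzw
    · intro w hw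
      simp only [mem_filter, mem_univ, true_and] at hw
      refine ⟨φ.symm w, ?_, by simp⟩
      simp only [mem_filter, mem_univ, true_and]
      rw [← hρ φ h1, h2]; simpa using hw
  have h1 : ∑ a : V, (univ.filter (fun z => ρ a z)).card
      = ∑ a : V, (univ.filter (fun z => ρ z a)).card :=
    Finset.sum_card_bipartiteAbove_eq_sum_card_bipartiteBelow (s := univ) (t := univ) ρ
  rw [Finset.sum_congr rfl (fun a _ => hout a x), Finset.sum_congr rfl (fun a _ => hin a y)] at h1
  simp only [sum_const, smul_eq_mul] at h1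
  have h2 : 0 < (univ : Finset V).card := Finset.card_pos.2 ⟨x, mem_univ x⟩
  exact Nat.eq_of_mul_eq_mul_left h2 h1

theorem Reg_fl {A : V → V → Prop} (hVT : VT A) {d : ℕ} (h : Reg A d) : Reg (fl A) d := by
  intro v
  have h1 := inout hVT A (fun φ hφ x y => hφ x y) v v
  have h2 := h v
  unfold Nb at h2 ⊢
  rw [← h2, h1]
  rfl

end Part1

section Part2

variable {V : Type u} [Fintype V]

theorem VT_const {A : V → V → Prop} (hVT : VT A) (f : V → Finset V)
    (hf : ∀ φ, IsAut A φ → ∀ x, f (φ x) = (f x).image φ) (x y : V) :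
    (f x).card = (f y).card := by
  obtain ⟨φ, h1, h2⟩ := hVT x y
  rw [← h2, hf φ h1, card_image_of_injective _ φ.injective]

theorem Nb_image {A : V → V → Prop} {φ : Equiv.Perm V} (h : IsAut A φ) (x : V) :
    Nb A (φ x) = (Nb A x).image φ := by
  ext y
  simp only [mem_Nb, mem_image]
  constructor
  · intro hy
    refine ⟨φ.symm y, ?_, by simp⟩
    rw [← h]; simpa using hy
  · rintro ⟨z, hz, rfl⟩
    exact (h x z).2 hz

def Inv {V : Type u} (A : V → V → Prop) (s : Setoid V) : Prop :=
  ∀ φ, IsAut A φ → ∀ x y, s.r x y → s.r (φ x) (φ y)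

noncomputable def cls (s : Setoid V) (x : V) : Finset V := univ.filter (fun y => s.r x y)

@[simp] theorem mem_cls (s : Setoid V) (x y : V) : y ∈ cls s x ↔ s.r x y := by simp [cls]

theorem self_mem_cls (s : Setoid V) (x : V) : x ∈ cls s x :=
  (mem_cls s x x).2 (s.refl x)

theorem cls_eq (s : Setoid V) {x y : V} (h : s.r x y) : cls s x = cls s y := by
  ext z
  rw [mem_cls, mem_cls]
  exact ⟨fun hz => s.trans (s.symm h) hz, fun hz => s.trans h hz⟩

theorem Inv_iff {A : V → V → Prop} {s : Setoid V} (hs : Inv A s) {φ : Equiv.Perm V}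
    (h : IsAut A φ) (x y : V) : s.r (φ x) (φ y) ↔ s.r x y := by
  constructor
  · intro hr
    have := hs φ.symm (IsAut_symm h) _ _ hr
    simpa using this
  · exact hs φ h x y

theorem cls_image {A : V → V → Prop} {s : Setoid V} (hs : Inv A s) {φ : Equiv.Perm V}
    (h : IsAut A φ) (x : V) : cls s (φ x) = (cls s x).image φ := by
  ext y
  simp only [mem_cls, mem_image]
  constructor
  · intro hy
    refine ⟨φ.symm y, ?_, by simp⟩
    rw [← Inv_iff hs h]; simpa using hy
  · rintro ⟨z, hz, rfl⟩
    exact hs φ h x z hz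

theorem cls_card {A : V → V → Prop} {s : Setoid V} (hs : Inv A s) (hVT : VT A) (x y : V) :
    (cls s x).card = (cls s y).card :=
  VT_const hVT (cls s) (fun _ h x => cls_image hs h x) x y

theorem Inv_fl {A : V → V → Prop} {s : Setoid V} (hs : Inv A s) : Inv (fl A) s := by
  intro φ hφ
  exact hs φ (IsAut_fl hφ)

theorem sat_card (s : Setoid V) (f : ℕ) (hf : ∀ x, (cls s x).card = f) (T : Finset V)
    (hT : ∀ x ∈ T, ∀ y, s.r x y → y ∈ T) :
    T.card = (T.image (Quotient.mk s)).card * f := by
  rw [card_eq_sum_card_image (Quotient.mk s) T]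
  rw [Finset.sum_const_nat (m := f)]
  intro q hq
  rw [mem_image] at hq
  obtain ⟨x, hx, rfl⟩ := hq
  rw [← hf x]
  congr 1
  ext y
  simp only [mem_filter, mem_cls]
  constructor
  · rintro ⟨_, h⟩
    exact s.symm (Quotient.exact h)
  · intro h
    exact ⟨hT x hx y h, Quotient.sound (s.symm h)⟩

theorem card_quot (s : Setoid V) (f : ℕ) (hf : ∀ x, (cls s x).card = f) :
    Fintype.card V = Fintype.card (Quotient s) * f := by
  have h := sat_card s f hf univ (fun _ _ _ _ => mem_univ _)
  have himg : (univ : Finset V).image (Quotient.mk s) = univ := by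
    ext q
    simp only [mem_image, mem_univ, true_and, iff_true]
    exact Quotient.exists_rep q
  rw [himg, card_univ, card_univ] at h
  exact h

/-- induced relation on a finset -/
def sub (A : V → V → Prop) (F : Finset V) : {x // x ∈ F} → {x // x ∈ F} → Prop :=
  fun x y => A x.1 y.1

theorem sub_VT {A : V → V → Prop} {s : Setoid V} (hs : Inv A s) (hVT : VT A) (v : V) :
    VT (sub A (cls s v)) := by
  rintro ⟨x, hx⟩ ⟨y, hy⟩
  obtain ⟨φ, h1, h2⟩ := hVT x y
  have hxy : ∀ z, z ∈ cls s v ↔ φ z ∈ cls s v := by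
    intro z
    have e1 : cls s v = cls s x := cls_eq s (by rwa [mem_cls] at hx)
    have e2 : cls s v = cls s y := cls_eq s (by rwa [mem_cls] at hy)
    constructor
    · intro hz
      rw [e1, mem_cls] at hz
      rw [e2, mem_cls, ← h2]
      exact hs φ h1 x z hz
    · intro hz
      rw [e2, mem_cls, ← h2] at hz
      rw [e1, mem_cls]
      exact (Inv_iff hs h1 x z).1 hz
  refine ⟨φ.subtypePerm (fun z => (hxy z).symm), ?_, ?_⟩
  · rintro ⟨a, ha⟩ ⟨b, hb⟩
    exact h1 a b
  · apply Subtype.ext
    simpa using h2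

/-- the inner out-degree -/
theorem sub_Reg {A : V → V → Prop} {s : Setoid V} (hs : Inv A s) (hVT : VT A) (v : V) (e : ℕ)
    (he : (Nb A v ∩ cls s v).card = e) : Reg (sub A (cls s v)) e := by
  rintro ⟨x, hx⟩
  have e1 : cls s v = cls s x := cls_eq s (by rwa [mem_cls] at hx)
  have h1 : (Nb A x ∩ cls s x).card = (Nb A v ∩ cls s v).card := by
    apply VT_const hVT (fun z => Nb A z ∩ cls s z)
    intro φ hφ z
    rw [Nb_image hφ, cls_image hs hφ, image_inter _ _ φ.injective]
  rw [← he, ← h1]
  refine Finset.card_bij (fun z _ => z.1) ?_ ?_ ?_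
  · rintro ⟨z, hz⟩ hz2
    simp only [mem_inter, mem_Nb]
    exact ⟨by simpa [sub] using hz2, by rw [← e1]; exact hz⟩
  · rintro ⟨z, hz⟩ _ ⟨w, hw⟩ _ hzw
    exact Subtype.ext hzw
  · intro z hz
    rw [mem_inter, mem_Nb] at hz
    refine ⟨⟨z, by rw [e1]; exact hz.2⟩, ?_, rfl⟩
    simpa [sub] using hz.1

end Part2

section Part3

variable {V : Type u} [Fintype V]

def Frag (A : V → V → Prop) (κ : ℕ) (F : Finset V) : Prop :=
  F.Nonempty ∧ C A F ≠ univ ∧ (C A F).card = F.card + κ

theorem Frag_image {A : V → V → Prop} {κ : ℕ} {φ : Equiv.Perm V} (h : IsAut A φ) {F : Finset V}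
    (hF : Frag A κ F) : Frag A κ (F.image φ) := by
  obtain ⟨h1, h2, h3⟩ := hF
  refine ⟨h1.image _, ?_, ?_⟩
  · rw [C_image h]
    intro he
    apply h2
    have h4 := congrArg Finset.card he
    rw [card_image_of_injective _ φ.injective] at h4
    rw [← Finset.card_eq_iff_eq_univ, h4]
    exact card_univ
  · rw [C_image h, card_image_of_injective _ φ.injective, card_image_of_injective _ φ.injective, h3]

theorem card_star (A : V → V → Prop) (F : Finset V) :
    (univ \ C A F).card + (C A F).card = Fintype.card V := by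
  rw [card_sdiff_of_subset (subset_univ _), card_univ]
  have : (C A F).card ≤ Fintype.card V := card_le_univ _
  omega

theorem Frag_star {A : V → V → Prop} {κ : ℕ} (hC : Conn A κ) {F : Finset V} (hF : Frag A κ F) :
    Frag (fl A) κ (univ \ C A F) := by
  obtain ⟨h1, h2, h3⟩ := hF
  have hne : (univ \ C A F).Nonempty := by
    rw [Finset.sdiff_nonempty]
    intro hs
    exact h2 (Finset.univ_subset_iff.1 hs)
  have hd := disj_C_fl A F
  have hnu : C (fl A) (univ \ C A F) ≠ univ := by
    intro he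
    rw [he] at hd
    obtain ⟨x, hx⟩ := h1
    exact Finset.disjoint_left.1 hd (mem_univ x) hx
  refine ⟨hne, hnu, ?_⟩
  have h4 := Conn_fl A κ hC _ hne hnu
  have h5 := card_disj hd
  have h6 := card_star A F
  omega

theorem blocks_of_family {A : V → V → Prop} (hVT : VT A) (𝓐 : Finset V → Prop)
    (hne : ∀ F, 𝓐 F → F.Nonempty) (hex : ∃ F, 𝓐 F)
    (himg : ∀ φ, IsAut A φ → ∀ F, 𝓐 F → 𝓐 (F.image φ))
    (heq : ∀ F G, 𝓐 F → 𝓐 G → (F ∩ G).Nonempty → F = G) :
    ∃ s : Setoid V, Inv A s ∧ ∀ v, 𝓐 (cls s v) := by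
  have hcov : ∀ v, ∃ F, 𝓐 F ∧ v ∈ F := by
    intro v
    obtain ⟨F, hF⟩ := hex
    obtain ⟨x, hx⟩ := hne F hF
    obtain ⟨φ, h1, h2⟩ := hVT x v
    exact ⟨F.image φ, himg φ h1 F hF, mem_image.2 ⟨x, hx, h2⟩⟩
  let s : Setoid V :=
    { r := fun x y => ∃ F, 𝓐 F ∧ x ∈ F ∧ y ∈ F
      iseqv := by
        refine ⟨?_, ?_, ?_⟩
        · intro x
          obtain ⟨F, hF, hx⟩ := hcov x
          exact ⟨F, hF, hx, hx⟩
        · rintro x y ⟨F, hF, hx, hy⟩
          exact ⟨F, hF, hy, hx⟩
        · rintro x y z ⟨F, hF, hx, hy⟩ ⟨G, hG, hy', hz⟩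
          have : F = G := heq F G hF hG ⟨y, mem_inter.2 ⟨hy, hy'⟩⟩
          subst this
          exact ⟨F, hF, hx, hz⟩ }
  refine ⟨s, ?_, ?_⟩
  · rintro φ hφ x y ⟨F, hF, hx, hy⟩
    exact ⟨F.image φ, himg φ hφ F hF, mem_image_of_mem _ hx, mem_image_of_mem _ hy⟩
  · intro v
    obtain ⟨F, hF, hv⟩ := hcov v
    have : cls s v = F := by
      ext y
      rw [mem_cls]
      constructor
      · rintro ⟨G, hG, hvG, hy⟩
        have : F = G := heq F G hF hG ⟨v, mem_inter.2 ⟨hv, hvG⟩⟩
        subst this
        exact hy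
      · intro hy
        exact ⟨F, hF, hv, hy⟩
    rw [this]
    exact hF

def Atomic (A : V → V → Prop) (κ : ℕ) : Prop :=
  ∃ s : Setoid V, Inv A s ∧ ∀ v, Frag A κ (cls s v)

theorem atoms {A : V → V → Prop} (hVT : VT A) (κ : ℕ) (hC : Conn A κ) (a : ℕ)
    (hF : ∃ F, Frag A κ F ∧ F.card = a)
    (hmin : ∀ F, Frag A κ F → a ≤ F.card) (hmin' : ∀ F, Frag (fl A) κ F → a ≤ F.card) :
    Atomic A κ := by
  have key := blocks_of_family hVT (fun F => Frag A κ F ∧ F.card = a) (fun F h => h.1.1) hF
    (fun φ hφ F h => ⟨Frag_image hφ h.1, by rw [card_image_of_injective _ φ.injective]; exact h.2⟩)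
    ?_
  · obtain ⟨s, h1, h2⟩ := key
    exact ⟨s, h1, fun v => (h2 v).1⟩
  · rintro F G ⟨hF, hFa⟩ ⟨hG, hGa⟩ hne
    have hFs := hmin' _ (Frag_star hC hF)
    have h1 := card_star A F
    have h2 := submod A F G
    have h3 := hF.2.2
    have h4 := hG.2.2
    have h5 : C A (F ∩ G) ≠ univ := by
      intro he
      apply hF.2.1
      apply Finset.univ_subset_iff.1
      rw [← he]
      exact C_mono A inter_subset_left
    have h6 := hC (F ∩ G) hne h5
    have h7 := card_union_add_card_inter F G
    have h8 : 0 < (F ∩ G).card := hne.card_pos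
    have h9 : C A (F ∪ G) ≠ univ := by
      intro he
      have := congrArg Finset.card he
      rw [card_univ] at this
      omega
    have h10 := hC (F ∪ G) (hF.1.mono subset_union_left) h9
    have h11 : Frag A κ (F ∩ G) := ⟨hne, h5, by omega⟩
    have h12 := hmin _ h11
    have h13 : F ∩ G = F := Finset.eq_of_subset_of_card_le inter_subset_left (by omega)
    have h14 : F ∩ G = G := Finset.eq_of_subset_of_card_le inter_subset_right (by omega)
    rw [← h13]
    exact h14

theorem dichotomy {A : V → V → Prop} (hVT : VT A) (d : ℕ) (h : ¬ Conn A d) :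
    ∃ κ, κ < d ∧ Conn A κ ∧ (Atomic A κ ∨ Atomic (fl A) κ) := by
  unfold Conn at h
  push Not at h
  obtain ⟨F, hF1, hF2, hF3⟩ := h
  have hex : ∃ k, ∃ F, F.Nonempty ∧ C A F ≠ univ ∧ (C A F).card = F.card + k := by
    refine ⟨(C A F).card - F.card, F, hF1, hF2, ?_⟩
    have := card_le_card (subset_C A F)
    omega
  set κ := Nat.find hex with hκ
  have hκ1 : ∃ F, F.Nonempty ∧ C A F ≠ univ ∧ (C A F).card = F.card + κ := Nat.find_spec hex
  have hκmin : ∀ F : Finset V, F.Nonempty → C A F ≠ univ → F.card + κ ≤ (C A F).card := by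
    intro G hG1 hG2
    have h1 : κ ≤ (C A G).card - G.card := by
      apply Nat.find_min' hex
      refine ⟨G, hG1, hG2, ?_⟩
      have := card_le_card (subset_C A G)
      omega
    have := card_le_card (subset_C A G)
    omega
  have hκd : κ < d := by
    have := hκmin F hF1 hF2
    omega
  refine ⟨κ, hκd, hκmin, ?_⟩
  have hexa : ∃ a, (∃ F, Frag A κ F ∧ F.card = a) ∨ (∃ F, Frag (fl A) κ F ∧ F.card = a) := by
    obtain ⟨F, hF⟩ := hκ1
    exact ⟨F.card, Or.inl ⟨F, hF, rfl⟩⟩
  have hspec := Nat.find_spec hexa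
  have hmin1 : ∀ F, Frag A κ F → Nat.find hexa ≤ F.card :=
    fun F hF => Nat.find_min' hexa (Or.inl ⟨F, hF, rfl⟩)
  have hmin2 : ∀ F, Frag (fl A) κ F → Nat.find hexa ≤ F.card :=
    fun F hF => Nat.find_min' hexa (Or.inr ⟨F, hF, rfl⟩)
  rcases hspec with hs | hs
  · exact Or.inl (atoms hVT κ hκmin _ hs hmin1 hmin2)
  · exact Or.inr (atoms (VT_fl hVT) κ (Conn_fl A κ hκmin) _ hs hmin2 hmin1)

/-- the boundary size of an invariant block is a multiple of the block size -/
theorem block_dvd {A : V → V → Prop} (hVT : VT A) {s : Setoid V} (hs : Inv A s) (v : V) :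
    (cls s v).card ∣ (C A (cls s v) \ cls s v).card := by
  obtain ⟨ρ, hρ⟩ : ∃ ρ : V → V → Prop, ∀ x y, ρ x y ↔ y ∈ C A (cls s x) \ cls s x :=
    ⟨_, fun _ _ => Iff.rfl⟩
  have hinv : ∀ φ, IsAut A φ → ∀ x y, ρ (φ x) (φ y) ↔ ρ x y := by
    intro φ hφ x y
    simp only [hρ]
    rw [cls_image hs hφ, C_image hφ, ← image_sdiff _ _ φ.injective]
    simp
  have h1 := inout hVT ρ hinv v v
  have h2 : (univ.filter (fun z => ρ v z)) = C A (cls s v) \ cls s v := by
    ext z; simp [hρ]
  rw [h2] at h1
  rw [h1]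
  have h3 := sat_card s (cls s v).card (fun x => cls_card hs hVT x v)
    (univ.filter (fun z => ρ z v)) ?_
  · rw [h3]; exact dvd_mul_left _ _
  · intro x hx y hxy
    simp only [mem_filter, mem_univ, true_and, hρ] at hx ⊢
    rw [← cls_eq s hxy]
    exact hx

end Part3

section Part4

variable {V : Type u} [Fintype V]

/-- statement of the counting theorem for good pairs -/
def KP (V : Type u) [Fintype V] : Prop :=
  ∀ (A : V → V → Prop), VT A → ∀ d, Reg A d → ∀ (v : V) (P Q : Finset V),
    C A {v} ⊆ P → C (fl A) {v} ⊆ Q → (∀ x ∈ P, x ∈ Q → x = v) → (∀ x ∈ P, ∀ y ∈ Q, ¬ A x y) →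
    P.card + Q.card + d ≤ Fintype.card V + 1

theorem card_C_singleton {A : V → V → Prop} {d : ℕ} (hR : Reg A d) (v : V) (hv : ¬ A v v) :
    (C A {v}).card = d + 1 := by
  have : C A {v} = insert v (Nb A v) := by
    ext y
    simp [eq_comm]
  rw [this, card_insert_of_notMem (by simpa using hv), hR v]

theorem card_split (P F : Finset V) : P.card = (P ∩ F).card + (P \ F).card := by
  rw [add_comm, card_sdiff_add_card_inter]

theorem kstep {A : V → V → Prop} (hVT : VT A) {d : ℕ} (hR : Reg A d) {κ : ℕ} (hκ : κ < d)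
    (hC : Conn A κ) (hAt : Atomic A κ)
    (IH : ∀ (W : Type u) [Fintype W], Fintype.card W < Fintype.card V → KP W)
    (v : V) (P Q : Finset V)
    (hP : C A {v} ⊆ P) (hQ : C (fl A) {v} ⊆ Q) (hPQ' : ∀ x ∈ P, x ∈ Q → x = v)
    (hno : ∀ x ∈ P, ∀ y ∈ Q, ¬ A x y) :
    P.card + Q.card + d ≤ Fintype.card V + 1 := by
  obtain ⟨s, hs, hfr⟩ := hAt
  obtain ⟨hF1, hF2, hF3⟩ := hfr v
  set F := cls s v with hF
  set e := (Nb A v ∩ F).card with he
  have hvF : v ∈ F := self_mem_cls s v
  have hvP : v ∈ P := hP (subset_C A _ (mem_singleton_self v))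
  have hvQ : v ∈ Q := hQ (subset_C _ _ (mem_singleton_self v))
  have hvv : ¬ A v v := hno v hvP v hvQ
  have hPQ : P ∩ Q = {v} := by
    ext y
    rw [mem_inter, mem_singleton]
    exact ⟨fun h => hPQ' y h.1 h.2, fun h => by rw [h]; exact ⟨hvP, hvQ⟩⟩
  have hNP : Nb A v ⊆ P := by
    intro y hy
    apply hP
    rw [mem_C]
    exact Or.inr ⟨v, mem_singleton_self v, by simpa using hy⟩
  have hNQ : Nb (fl A) v ⊆ Q := by
    intro y hy
    apply hQ
    rw [mem_C]
    exact Or.inr ⟨v, mem_singleton_self v, by simpa using hy⟩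
  -- the block is a proper subset
  have hFn : F.card < Fintype.card V := by
    have h1 := card_star A F
    have h2 : 0 < (univ \ C A F).card := by
      rw [card_pos, Finset.sdiff_nonempty]
      intro hsub
      exact hF2 (Finset.univ_subset_iff.1 hsub)
    omega
  have hsubR := sub_Reg hs hVT v e rfl
  have hsubR' := Reg_fl (sub_VT hs hVT v) hsubR
  -- inner inequality
  have inner : (P ∩ F).card + (Q ∩ F).card + e ≤ F.card + 1 := by
    have h := IH {x // x ∈ F} (by rw [Fintype.card_coe]; exact hFn) (sub A F)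
      (sub_VT hs hVT v) e hsubR ⟨v, hvF⟩ (P.subtype (· ∈ F)) (Q.subtype (· ∈ F)) ?_ ?_ ?_ ?_
    · rw [Fintype.card_coe, card_subtype, card_subtype] at h
      have e1 : P.filter (· ∈ F) = P ∩ F := by ext y; simp
      have e2 : Q.filter (· ∈ F) = Q ∩ F := by ext y; simp
      rw [← e1, ← e2]
      convert h
    · rintro ⟨y, hy⟩ hy2
      rw [mem_subtype]
      apply hP
      rw [mem_C] at hy2 ⊢
      rcases hy2 with hy2 | ⟨x, hx, hxy⟩
      · left
        rw [mem_singleton] at hy2 ⊢
        exact congrArg Subtype.val hy2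
      · right
        rw [mem_singleton] at hx
        subst hx
        exact ⟨v, mem_singleton_self v, hxy⟩
    · rintro ⟨y, hy⟩ hy2
      rw [mem_subtype]
      apply hQ
      rw [mem_C] at hy2 ⊢
      rcases hy2 with hy2 | ⟨x, hx, hxy⟩
      · left
        rw [mem_singleton] at hy2 ⊢
        exact congrArg Subtype.val hy2
      · right
        rw [mem_singleton] at hx
        subst hx
        exact ⟨v, mem_singleton_self v, hxy⟩
    · rintro ⟨y, hy⟩ hyP hyQ
      rw [mem_subtype] at hyP hyQ
      exact Subtype.ext (hPQ' y hyP hyQ)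
    · rintro ⟨x, hx⟩ hxP ⟨y, hy⟩ hyQ hxy
      rw [mem_subtype] at hxP hyQ
      exact hno x hxP y hyQ hxy
  -- sizes
  have hκF : (C A F \ F).card = κ := by
    rw [card_sdiff_of_subset (subset_C A F), hF3]; omega
  have hNd : (Nb A v \ F).card + e = d := by
    have := card_split (Nb A v) F
    rw [hR v] at this
    omega
  have hNsub : Nb A v \ F ⊆ C A F \ F := by
    intro y hy
    rw [mem_sdiff] at hy ⊢
    refine ⟨?_, hy.2⟩
    rw [mem_C]
    exact Or.inr ⟨v, hvF, by simpa using hy.1⟩
  have hNκ := card_le_card hNsub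
  have he1 : 1 ≤ e := by omega
  -- the part of Q in the boundary avoids N(v)
  have hQT : (Q ∩ (C A F \ F)).card + (Nb A v \ F).card ≤ κ := by
    rw [← hκF, ← card_union_of_disjoint]
    · apply card_le_card
      intro y hy
      rw [mem_union] at hy
      rcases hy with hy | hy
      · exact (mem_inter.1 hy).2
      · exact hNsub hy
    · rw [Finset.disjoint_left]
      intro y hy hy2
      rw [mem_sdiff, mem_Nb] at hy2
      exact hno v hvP y (mem_inter.1 hy).1 hy2.1
  have hPs := card_split P F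
  have hQs := card_split Q F
  by_cases hcase : (Q \ C A F).Nonempty
  · -- main case
    have hdisj : Disjoint (C A (P ∪ F)) (Q \ C A F) := by
      rw [C_union, Finset.disjoint_left]
      intro y hy hyQ
      rw [mem_sdiff] at hyQ
      rw [mem_union] at hy
      rcases hy with hy | hy
      · rw [mem_C] at hy
        rcases hy with hy | ⟨x, hx, hxy⟩
        · have : y ∈ P ∩ Q := mem_inter.2 ⟨hy, hyQ.1⟩
          rw [hPQ, mem_singleton] at this
          subst this
          exact hyQ.2 (subset_C A F hvF)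
        · exact hno x hx y hyQ.1 hxy
      · exact hyQ.2 hy
    have hnu : C A (P ∪ F) ≠ univ := by
      intro he'
      rw [he'] at hdisj
      obtain ⟨x, hx⟩ := hcase
      exact Finset.disjoint_left.1 hdisj (mem_univ x) hx
    have h1 := hC (P ∪ F) ⟨v, mem_union_left _ hvP⟩ hnu
    have h2 := card_disj hdisj
    have h3 : (P ∪ F).card = F.card + (P \ F).card := by
      rw [union_comm, ← card_union_of_disjoint (Finset.disjoint_sdiff)]
      congr 1
      ext y
      simp only [mem_union, mem_sdiff]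
      tauto
    have h4 : (Q \ F).card = (Q \ C A F).card + (Q ∩ (C A F \ F)).card := by
      rw [← card_union_of_disjoint]
      · congr 1
        ext y
        have := @subset_C V _ A F y
        simp only [mem_union, mem_sdiff, mem_inter]
        tauto
      · rw [Finset.disjoint_left]
        intro y hy hy2
        simp only [mem_sdiff, mem_inter] at hy hy2
        exact hy.2 hy2.2.1
    omega
  · -- degenerate case
    rw [Finset.not_nonempty_iff_eq_empty] at hcase
    have h4 : Q \ F ⊆ Q ∩ (C A F \ F) := by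
      intro y hy
      rw [mem_sdiff] at hy
      rw [mem_inter, mem_sdiff]
      refine ⟨hy.1, ?_, hy.2⟩
      by_contra hn
      have : y ∈ Q \ C A F := mem_sdiff.2 ⟨hy.1, hn⟩
      rw [hcase] at this
      simp at this
    have h5 := card_le_card h4
    -- in-degree
    have h6 : (Nb (fl A) v \ F).card + e = d := by
      have h7 := card_split (Nb (fl A) v) F
      rw [Reg_fl hVT hR v] at h7
      have h8 : (Nb (fl A) v ∩ F).card = e := by
        have h9 := hsubR' ⟨v, hvF⟩
        rw [← h9]
        symm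
        refine Finset.card_bij (fun z _ => z.1) ?_ ?_ ?_
        · rintro ⟨z, hz⟩ hz2
          simp only [mem_inter, mem_Nb]
          exact ⟨by simpa [sub, fl] using hz2, hz⟩
        · rintro ⟨z, hz⟩ _ ⟨w, hw⟩ _ hzw
          exact Subtype.ext hzw
        · intro z hz
          rw [mem_inter, mem_Nb] at hz
          refine ⟨⟨z, hz.2⟩, ?_, rfl⟩
          simpa [sub, fl] using hz.1
      omega
    have h7 : (Nb (fl A) v \ F).card ≤ (Q \ F).card := by
      apply card_le_card
      intro y hy
      rw [mem_sdiff] at hy ⊢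
      exact ⟨hNQ hy.1, hy.2⟩
    have h8 : e + 1 ≤ (P ∩ F).card := by
      have : insert v (Nb A v ∩ F) ⊆ P ∩ F := by
        intro y hy
        rw [mem_insert] at hy
        rcases hy with rfl | hy
        · exact mem_inter.2 ⟨hvP, hvF⟩
        · exact mem_inter.2 ⟨hNP (mem_inter.1 hy).1, (mem_inter.1 hy).2⟩
      have h9 := card_le_card this
      rw [card_insert_of_notMem (by simp [hvv])] at h9
      exact h9
    have h9 : 1 ≤ (Q ∩ F).card := card_pos.2 ⟨v, mem_inter.2 ⟨hvQ, hvF⟩⟩
    have h10 : F.card ∣ κ := by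
      rw [← hκF]; exact block_dvd hVT hs v
    have h11 : κ = 0 := by
      by_contra h0
      have := Nat.le_of_dvd (Nat.pos_of_ne_zero h0) h10
      omega
    have h12 : (P \ F).card + F.card ≤ Fintype.card V := by
      rw [← card_union_of_disjoint (Finset.sdiff_disjoint)]
      exact card_le_univ _
    omega

theorem kprime_aux : ∀ n : ℕ, ∀ (V : Type u) [Fintype V], Fintype.card V = n → KP V := by
  intro n
  induction n using Nat.strong_induction_on with
  | _ n ih =>
    intro V _ hn A hVT d hR v P Q hP hQ hPQ' hno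
    have hvP : v ∈ P := hP (subset_C A _ (mem_singleton_self v))
    have hvQ : v ∈ Q := hQ (subset_C _ _ (mem_singleton_self v))
    have hPQ : P ∩ Q = {v} := by
      ext y
      rw [mem_inter, mem_singleton]
      exact ⟨fun h => hPQ' y h.1 h.2, fun h => by rw [h]; exact ⟨hvP, hvQ⟩⟩
    have IH : ∀ (W : Type u) [Fintype W], Fintype.card W < Fintype.card V → KP W := by
      intro W _ hW
      exact ih (Fintype.card W) (by omega) W rfl
    by_cases hcon : Conn A d
    · have hcu := card_union_add_card_inter P Q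
      rw [hPQ, card_singleton] at hcu
      have hcu2 : (P ∪ Q).card ≤ Fintype.card V := card_le_univ _
      by_cases hQ1 : (Q.erase v).Nonempty
      · have hdisj : Disjoint (C A P) (Q.erase v) := by
          apply disj_C
          · rw [Finset.disjoint_left]
            intro y hy hy2
            rw [mem_erase] at hy2
            have : y ∈ P ∩ Q := mem_inter.2 ⟨hy, hy2.2⟩
            rw [hPQ, mem_singleton] at this
            exact hy2.1 this
          · intro x hx y hy
            exact hno x hx y (mem_erase.1 hy).2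
        have hnu : C A P ≠ univ := by
          intro he'
          rw [he'] at hdisj
          obtain ⟨x, hx⟩ := hQ1
          exact Finset.disjoint_left.1 hdisj (mem_univ x) hx
        have h1 := hcon P ⟨v, hvP⟩ hnu
        have h2 := card_disj hdisj
        rw [card_erase_of_mem hvQ] at h2
        have h3 : 0 < Q.card := card_pos.2 ⟨v, hvQ⟩
        omega
      · -- then d = 0
        have hd : d = 0 := by
          rw [← Reg_fl hVT hR v, card_eq_zero]
          rw [Finset.eq_empty_iff_forall_notMem]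
          intro y hy
          apply hQ1
          refine ⟨y, ?_⟩
          rw [mem_erase]
          refine ⟨?_, ?_⟩
          · rintro rfl
            rw [mem_Nb] at hy
            exact hno y hvP y hvQ hy
          · apply hQ
            rw [mem_C]
            exact Or.inr ⟨v, mem_singleton_self v, by simpa using hy⟩
        omega
    · obtain ⟨κ, hκ, hC, hAt | hAt⟩ := dichotomy hVT d hcon
      · exact kstep hVT hR hκ hC hAt IH v P Q hP hQ hPQ' hno
      · have := kstep (VT_fl hVT) (Reg_fl hVT hR) hκ (Conn_fl A κ hC) hAt IH v Q P hQ hP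
          (fun x hx hx2 => hPQ' x hx2 hx) (fun x hx y hy hxy => hno y hy x hx hxy)
        omega

theorem kprime (V : Type u) [Fintype V] : KP V := kprime_aux _ V rfl

end Part4

section Part5

variable {V : Type u} [Fintype V]

/-- there is a walk of length exactly `k` from `x` to `y` -/
def Wk {V : Type u} (A : V → V → Prop) : ℕ → V → V → Prop
  | 0, x, y => x = y
  | k + 1, x, y => ∃ z, Wk A k x z ∧ A z y

/-- no closed walk of length between 1 and `m` -/
def NC {V : Type u} (A : V → V → Prop) (m : ℕ) : Prop :=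
  ∀ k, 1 ≤ k → k ≤ m → ∀ v, ¬ Wk A k v v

theorem Wk_add {V : Type u} {A : V → V → Prop} {k l : ℕ} {x y z : V} (h1 : Wk A k x y)
    (h2 : Wk A l y z) : Wk A (k + l) x z := by
  induction l generalizing z with
  | zero =>
    have h2' : y = z := h2
    subst h2'
    exact h1
  | succ l ih =>
    obtain ⟨w, hw, hwz⟩ := h2
    exact ⟨w, ih hw, hwz⟩

theorem Wk_one {V : Type u} {A : V → V → Prop} {x y : V} (h : A x y) : Wk A 1 x y :=
  ⟨x, rfl, h⟩

theorem Wk_fl {V : Type u} {A : V → V → Prop} {k : ℕ} {x y : V} (h : Wk A k x y) :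
    Wk (fl A) k y x := by
  induction k generalizing y with
  | zero => exact (show x = y from h).symm
  | succ k ih =>
    obtain ⟨w, hw, hwy⟩ := h
    have h1 : Wk (fl A) 1 y w := Wk_one hwy
    have h2 := Wk_add h1 (ih hw)
    rw [add_comm] at h2
    exact h2

theorem NC_fl {V : Type u} {A : V → V → Prop} {m : ℕ} (h : NC A m) : NC (fl A) m := by
  intro k hk1 hk2 v hv
  exact h k hk1 hk2 v (Wk_fl (A := fl A) hv)

/-- balls -/
noncomputable def Ball (A : V → V → Prop) : ℕ → V → Finset V
  | 0, v => {v}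
  | j + 1, v => C A (Ball A j v)

theorem mem_Ball (A : V → V → Prop) (j : ℕ) (v y : V) :
    y ∈ Ball A j v ↔ ∃ k, k ≤ j ∧ Wk A k v y := by
  induction j generalizing y with
  | zero =>
    simp only [Ball, mem_singleton]
    constructor
    · rintro rfl; exact ⟨0, le_refl 0, rfl⟩
    · rintro ⟨k, hk, hw⟩
      have : k = 0 := by omega
      subst this
      exact (show v = y from hw).symm
  | succ j ih =>
    simp only [Ball, mem_C]
    constructor
    · rintro (h | ⟨x, hx, hxy⟩)
      · obtain ⟨k, hk, hw⟩ := (ih y).1 h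
        exact ⟨k, by omega, hw⟩
      · obtain ⟨k, hk, hw⟩ := (ih x).1 hx
        exact ⟨k + 1, by omega, x, hw, hxy⟩
    · rintro ⟨k, hk, hw⟩
      rcases k with _ | k
      · left; exact (ih y).2 ⟨0, Nat.zero_le _, hw⟩
      · obtain ⟨x, hx, hxy⟩ := hw
        right; exact ⟨x, (ih x).2 ⟨k, by omega, hx⟩, hxy⟩

theorem Ball_mono (A : V → V → Prop) {i j : ℕ} (h : i ≤ j) (v : V) : Ball A i v ⊆ Ball A j v := by
  intro y hy
  rw [mem_Ball] at hy ⊢
  obtain ⟨k, hk, hw⟩ := hy
  exact ⟨k, by omega, hw⟩

theorem self_mem_Ball (A : V → V → Prop) (j : ℕ) (v : V) : v ∈ Ball A j v := by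
  rw [mem_Ball]; exact ⟨0, Nat.zero_le _, rfl⟩

theorem NC_ball {A : V → V → Prop} {m : ℕ} (h : NC A m) {j : ℕ} (hj : j + 1 ≤ m) {v u : V}
    (hu : u ∈ Ball A j v) : ¬ A u v := by
  intro huv
  rw [mem_Ball] at hu
  obtain ⟨k, hk, hw⟩ := hu
  exact h (k + 1) (by omega) (by omega) v ⟨u, hw, huv⟩

theorem Ball_one (A : V → V → Prop) (v : V) : Ball A 1 v = C A {v} := rfl

theorem Ball_succ (A : V → V → Prop) (j : ℕ) (v : V) : Ball A (j + 1) v = C A (Ball A j v) := rfl

theorem ball_growth {A : V → V → Prop} (hVT : VT A) {d : ℕ} (hR : Reg A d) {m : ℕ}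
    (hNC : NC A m) (v : V) {j : ℕ} (hj1 : 1 ≤ j) (hj2 : j + 2 ≤ m) :
    (Ball A j v).card + d ≤ (Ball A (j + 1) v).card := by
  set Z := univ \ Ball A (j + 1) v with hZ
  have hvZ : v ∉ Z := by
    rw [hZ, mem_sdiff]
    intro h
    exact h.2 (self_mem_Ball A (j + 1) v)
  have hsub : C (fl A) {v} ⊆ insert v Z := by
    intro y hy
    rw [mem_C] at hy
    rw [mem_insert]
    rcases hy with hy | ⟨x, hx, hxy⟩
    · left; simpa using hy
    · right
      rw [mem_singleton] at hx
      subst hx
      rw [hZ, mem_sdiff]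
      refine ⟨mem_univ _, ?_⟩
      intro hy2
      exact NC_ball hNC (by omega) hy2 hxy
  have h1 := kprime V A hVT d hR v (Ball A j v) (insert v Z)
    (by rw [← Ball_one]; exact Ball_mono A hj1 v) hsub ?_ ?_
  · rw [card_insert_of_notMem hvZ] at h1
    have h2 := card_star A (Ball A j v)
    rw [← Ball_succ] at h2
    rw [hZ] at h1
    omega
  · intro x hx hx2
    rw [mem_insert] at hx2
    rcases hx2 with hx2 | hx2
    · exact hx2
    · exfalso
      rw [hZ, mem_sdiff] at hx2
      exact hx2.2 (Ball_mono A (Nat.le_succ j) v hx)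
  · intro x hx y hy hxy
    rw [mem_insert] at hy
    rcases hy with hy | hy
    · subst hy
      exact NC_ball hNC (by omega) hx hxy
    · rw [hZ, mem_sdiff] at hy
      apply hy.2
      rw [Ball_succ, mem_C]
      exact Or.inr ⟨x, hx, hxy⟩

theorem irrefl_of_NC {V : Type u} {A : V → V → Prop} {m : ℕ} (hm : 1 ≤ m) (hNC : NC A m) (v : V) :
    ¬ A v v := fun h => hNC 1 le_rfl hm v (Wk_one h)

/-- Hamidoune's bound -/
theorem thmH {A : V → V → Prop} (hVT : VT A) {d : ℕ} (hR : Reg A d) {m : ℕ} (hm : 2 ≤ m)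
    (hNC : NC A m) (v : V) : d * m + 1 ≤ Fintype.card V := by
  have h1 : ∀ j, 1 ≤ j → j + 1 ≤ m → d * j + 1 ≤ (Ball A j v).card := by
    intro j hj
    induction j, hj using Nat.le_induction with
    | base =>
      intro _
      rw [Ball_one, card_C_singleton hR v (irrefl_of_NC (by omega) hNC v)]
      omega
    | succ j hj ih =>
      intro hjm
      have h2 := ih (by omega)
      have h3 := ball_growth hVT hR hNC v hj (by omega)
      have h4 : d * (j + 1) = d * j + d := by ring
      omega
  have h2 := h1 (m - 1) (by omega) (by omega)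
  have h3 : Disjoint (Ball A (m - 1) v) (Nb (fl A) v) := by
    rw [Finset.disjoint_left]
    intro y hy hy2
    rw [mem_Nb] at hy2
    exact NC_ball hNC (by omega) hy hy2
  have h4 := card_disj h3
  rw [Reg_fl hVT hR v] at h4
  have h5 : d * m = d * (m - 1) + d := by
    obtain ⟨k, rfl⟩ : ∃ k, m = k + 1 := ⟨m - 1, by omega⟩
    simp only [Nat.add_sub_cancel]
    ring
  omega

end Part5

section Part6

theorem InL_iso {V W : Type} {X : V → V → Prop} {Y : W → W → Prop} (e : V ≃ W)
    (h : ∀ x y, X x y ↔ Y (e x) (e y)) (hY : InL Y) : InL X := by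
  obtain ⟨U, Z, hZ, f, hf⟩ := hY
  refine ⟨U, Z, hZ, e.trans f, ?_⟩
  intro x y
  rw [h, hf]
  rfl

theorem InL_of_IterLex {V : Type} {X : V → V → Prop} (h : IterLex V X) : InL X :=
  ⟨V, X, h, Equiv.refl V, fun _ _ => Iff.rfl⟩

theorem InL_circ (n d : ℕ) (h : d < n) : InL (circ n d) := InL_of_IterLex (IterLex.base n d h)

theorem lexProd_congr {V V' W W' : Type} {X : V → V → Prop} {X' : V' → V' → Prop}
    {Y : W → W → Prop} {Y' : W' → W' → Prop} (e : V ≃ V') (he : ∀ x y, X x y ↔ X' (e x) (e y))
    (f : W ≃ W') (hf : ∀ x y, Y x y ↔ Y' (f x) (f y)) (p q : V × W) :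
    lexProd X Y p q ↔ lexProd X' Y' (Equiv.prodCongr e f p) (Equiv.prodCongr e f q) := by
  rcases p with ⟨p1, p2⟩
  rcases q with ⟨q1, q2⟩
  simp only [lexProd, Equiv.prodCongr_apply, Prod.map_apply]
  rw [he, hf, e.apply_eq_iff_eq]

theorem InL_lex {V W : Type} {X : V → V → Prop} {Y : W → W → Prop} (hX : InL X) (hY : InL Y) :
    InL (lexProd X Y) := by
  obtain ⟨X', A, hA, e, he⟩ := hX
  obtain ⟨Y', B, hB, f, hf⟩ := hY
  refine InL_iso (Equiv.prodCongr e f) (lexProd_congr e he f hf) ?_
  clear he hf e f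
  induction hA with
  | base n d h => exact InL_of_IterLex (IterLex.step n d h Y' B hB)
  | step n d h W0 Y0 hY0 ih =>
    obtain ⟨U, Z, hZ, f, hf⟩ := ih
    refine ⟨ZMod n × U, lexProd (circ n d) Z, IterLex.step n d h U Z hZ,
      (Equiv.prodAssoc (ZMod n) W0 Y').trans (Equiv.prodCongr (Equiv.refl _) f), ?_⟩
    rintro ⟨⟨a, b⟩, c⟩ ⟨⟨a', b'⟩, c'⟩
    have h1 := hf (b, c) (b', c')
    simp only [lexProd, Equiv.trans_apply, Equiv.prodAssoc_apply, Equiv.prodCongr_apply,
      Prod.map_apply, Equiv.refl_apply, Prod.mk.injEq] at h1 ⊢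
    rw [← h1]
    tauto

theorem InL_fl {V : Type} {X : V → V → Prop} (hX : InL X) : InL (fl X) := by
  obtain ⟨X', A, hA, e, he⟩ := hX
  refine InL_iso (Y := fl A) e (fun x y => he y x) ?_
  clear he e
  induction hA with
  | base n d h =>
    refine InL_iso (Equiv.neg (ZMod n)) ?_ (InL_circ n d h)
    intro x y
    simp only [fl, circ, Equiv.neg_apply]
    constructor
    · rintro ⟨k, h1, h2, h3⟩
      exact ⟨k, h1, h2, by rw [h3]; ring⟩
    · rintro ⟨k, h1, h2, h3⟩
      refine ⟨k, h1, h2, ?_⟩
      have : y = -(-x + (k : ZMod n)) := by rw [← h3]; ring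
      rw [this]; ring
  | step n d h W0 Y0 hY0 ih =>
    have hc : InL (fl (circ n d)) := by
      refine InL_iso (Equiv.neg (ZMod n)) ?_ (InL_circ n d h)
      intro x y
      simp only [fl, circ, Equiv.neg_apply]
      constructor
      · rintro ⟨k, h1, h2, h3⟩
        exact ⟨k, h1, h2, by rw [h3]; ring⟩
      · rintro ⟨k, h1, h2, h3⟩
        refine ⟨k, h1, h2, ?_⟩
        have : y = -(-x + (k : ZMod n)) := by rw [← h3]; ring
        rw [this]; ring
    have := InL_lex hc ih
    convert this using 1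
    funext p q
    simp only [fl, lexProd, eq_iff_iff]
    rw [@eq_comm _ p.1 q.1]

/-- empty digraph -/
theorem InL_empty {V : Type} [Fintype V] [Nonempty V] (X : V → V → Prop) (h : ∀ x y, ¬ X x y) :
    InL X := by
  have hn : 0 < Fintype.card V := Fintype.card_pos
  have : NeZero (Fintype.card V) := ⟨by omega⟩
  refine InL_iso (Fintype.equivOfCardEq (ZMod.card (Fintype.card V)).symm) ?_
    (InL_circ (Fintype.card V) 0 hn)
  intro x y
  constructor
  · intro hxy; exact absurd hxy (h x y)
  · rintro ⟨k, h1, h2, _⟩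
    omega

end Part6

section Part7

section Quo

variable {V : Type} [Fintype V]

/-- quotient relation -/
def quo {V : Type} (A : V → V → Prop) (s : Setoid V) : Quotient s → Quotient s → Prop :=
  fun a b => a ≠ b ∧ ∃ x y, Quotient.mk s x = a ∧ Quotient.mk s y = b ∧ A x y

theorem quo_VT {A : V → V → Prop} {s : Setoid V} (hs : Inv A s) (hVT : VT A) :
    VT (quo A s) := by
  intro a b
  obtain ⟨x, rfl⟩ := Quotient.exists_rep a
  obtain ⟨y, rfl⟩ := Quotient.exists_rep b
  obtain ⟨φ, h1, h2⟩ := hVT x y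
  let Φ : Equiv.Perm (Quotient s) := Quotient.congr φ (fun a b => (Inv_iff hs h1 a b).symm)
  have hΦ : ∀ z, Φ (Quotient.mk s z) = Quotient.mk s (φ z) := fun z => rfl
  refine ⟨Φ, ?_, ?_⟩
  · intro a b
    obtain ⟨x', rfl⟩ := Quotient.exists_rep a
    obtain ⟨y', rfl⟩ := Quotient.exists_rep b
    unfold quo
    rw [Φ.injective.ne_iff]
    apply and_congr Iff.rfl
    constructor
    · rintro ⟨u, w, hu, hw, huw⟩
      refine ⟨φ.symm u, φ.symm w, ?_, ?_, ?_⟩
      · apply Φ.injective
        rw [hΦ]; simpa using hu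
      · apply Φ.injective
        rw [hΦ]; simpa using hw
      · rw [← h1]; simpa using huw
    · rintro ⟨u, w, hu, hw, huw⟩
      exact ⟨φ u, φ w, by rw [← hΦ, hu], by rw [← hΦ, hw], (h1 u w).2 huw⟩
  · rw [hΦ, h2]

theorem Wk_head {V : Type} {A : V → V → Prop} {k : ℕ} {x y : V} (h : Wk A (k + 1) x y) :
    ∃ z, A x z ∧ Wk A k z y := by
  induction k generalizing y with
  | zero =>
    obtain ⟨z, hz, hzy⟩ := h
    have hz' : x = z := hz
    subst hz'
    exact ⟨y, hzy, rfl⟩
  | succ k ih =>
    obtain ⟨z, hz, hzy⟩ := h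
    obtain ⟨w, hw, hwz⟩ := ih hz
    exact ⟨w, hw, z, hwz, hzy⟩

theorem quo_step {A : V → V → Prop} {s : Setoid V}
    (hsame : ∀ x y, s.r x y → Nb A x \ cls s x = Nb A y \ cls s y) {a b : Quotient s}
    (h : quo A s a b) {x : V} (hx : Quotient.mk s x = a) :
    ∃ y, Quotient.mk s y = b ∧ A x y ∧ ¬ s.r x y := by
  obtain ⟨hab, x', y', hx', hy', hxy'⟩ := h
  have hrel : s.r x' x := Quotient.exact (hx'.trans hx.symm)
  have hn : ¬ s.r x' y' := by
    intro hr
    apply hab
    rw [← hx', ← hy']
    exact Quotient.sound hr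
  have h1 : y' ∈ Nb A x' \ cls s x' := by
    rw [mem_sdiff, mem_Nb, mem_cls]
    exact ⟨hxy', hn⟩
  rw [hsame x' x hrel, mem_sdiff, mem_Nb, mem_cls] at h1
  exact ⟨y', hy', h1.1, h1.2⟩

theorem quo_lift {A : V → V → Prop} {s : Setoid V}
    (hsame : ∀ x y, s.r x y → Nb A x \ cls s x = Nb A y \ cls s y) {k : ℕ} {a b : Quotient s}
    (h : Wk (quo A s) k a b) {x : V} (hx : Quotient.mk s x = a) :
    ∃ y, Quotient.mk s y = b ∧ Wk A k x y := by
  induction k generalizing b with
  | zero =>
    have h' : a = b := h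
    subst h'
    exact ⟨x, hx, rfl⟩
  | succ k ih =>
    obtain ⟨c, hc, hcb⟩ := h
    obtain ⟨z, hz, hxz⟩ := ih hc
    obtain ⟨y, hy, hzy, _⟩ := quo_step hsame hcb hz
    exact ⟨y, hy, z, hxz, hzy⟩

theorem quo_NC {A : V → V → Prop} {s : Setoid V} {m : ℕ}
    (hsame : ∀ x y, s.r x y → Nb A x \ cls s x = Nb A y \ cls s y) (hNC : NC A m) :
    NC (quo A s) m := by
  intro k hk1 hk2 a ha
  obtain ⟨k, rfl⟩ : ∃ j, k = j + 1 := ⟨k - 1, by omega⟩
  obtain ⟨c, hac, hca⟩ := Wk_head ha
  obtain ⟨x, hx⟩ := Quotient.exists_rep a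
  obtain ⟨z, hz, hxz, hnr⟩ := quo_step hsame hac hx
  obtain ⟨y, hy, hzy⟩ := quo_lift hsame hca hz
  have hrel : s.r x y := Quotient.exact (hx.trans hy.symm)
  have h1 : z ∈ Nb A x \ cls s x := by
    rw [mem_sdiff, mem_Nb, mem_cls]
    exact ⟨hxz, hnr⟩
  rw [hsame x y hrel, mem_sdiff, mem_Nb, mem_cls] at h1
  have h2 : Wk A (1 + k) y y := Wk_add (Wk_one h1.1) hzy
  rw [add_comm] at h2
  exact hNC (k + 1) hk1 hk2 y h2

theorem sub_NC {A : V → V → Prop} {F : Finset V} {m : ℕ} (hNC : NC A m) : NC (sub A F) m := by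
  intro k hk1 hk2 a ha
  apply hNC k hk1 hk2 a.1
  have : ∀ k, ∀ x y : {x // x ∈ F}, Wk (sub A F) k x y → Wk A k x.1 y.1 := by
    intro k
    induction k with
    | zero => intro x y h; exact congrArg Subtype.val (show x = y from h)
    | succ k ih =>
      rintro x y ⟨z, hz, hzy⟩
      exact ⟨z.1, ih x z hz, hzy⟩
  exact this k a a ha

end Quo

/-- the induction hypothesis used for smaller digraphs -/
def IHyp (n m : ℕ) : Prop :=
  ∀ (W : Type) [Fintype W], Fintype.card W < n → ∀ (B : W → W → Prop), VT B → Nonempty W →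
    ∀ e, Reg B e → NC B m → (e = 0 ∨ Fintype.card W + 2 ≤ (e + 1) * m) → InL B

theorem lex_lemma {V : Type} [Fintype V] {A : V → V → Prop} (hVT : VT A) {d m : ℕ} (hR : Reg A d)
    (hm : 3 ≤ m) (hNC : NC A m) (hn : Fintype.card V + 2 ≤ (d + 1) * m)
    (s : Setoid V) (hs : Inv A s)
    (hsame : ∀ x y, s.r x y → Nb A x \ cls s x = Nb A y \ cls s y)
    (v : V) (h2 : 2 ≤ (cls s v).card) (hlt : (cls s v).card < Fintype.card V)
    (IH : IHyp (Fintype.card V) m) : InL A := by
  set f := (cls s v).card with hf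
  set e := (Nb A v ∩ cls s v).card with he
  have hfx : ∀ x, (cls s x).card = f := fun x => cls_card hs hVT x v
  have hex : ∀ x, (Nb A x ∩ cls s x).card = e := by
    intro x
    apply VT_const hVT (fun z => Nb A z ∩ cls s z)
    intro φ hφ z
    rw [Nb_image hφ, cls_image hs hφ, image_inter _ _ φ.injective]
  have hYVT := quo_VT hs hVT
  have hYNC := quo_NC hsame hNC
  set Y := quo A s with hY
  set k := (Nb Y (Quotient.mk s v)).card with hk
  have hYR : Reg Y k := by
    intro a
    exact VT_const hYVT (Nb Y) (fun φ hφ x => Nb_image hφ x) a _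
  have hq := card_quot s f hfx
  have hH1 := thmH hYVT hYR (by omega : 2 ≤ m) hYNC (Quotient.mk s v)
  have hsVT := sub_VT hs hVT v
  have hsR := sub_Reg hs hVT v e rfl
  have hsNC : NC (sub A (cls s v)) m := sub_NC hNC
  have hH2 := thmH hsVT hsR (by omega : 2 ≤ m) hsNC ⟨v, self_mem_cls s v⟩
  rw [Fintype.card_coe, ← hf] at hH2
  set q := Fintype.card (Quotient s) with hqdef
  -- the boundary
  have hU : ∀ x, (univ.filter (fun y => Y (Quotient.mk s x) (Quotient.mk s y))).card = k * f := by
    intro x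
    rw [sat_card s f hfx]
    · congr 1
      rw [← hYR (Quotient.mk s x)]
      congr 1
      ext b
      obtain ⟨y, rfl⟩ := Quotient.exists_rep b
      rw [mem_Nb, mem_image]
      constructor
      · rintro ⟨z, hz, hzb⟩
        rw [mem_filter] at hz
        rw [← hzb]
        exact hz.2
      · intro hb
        exact ⟨y, mem_filter.2 ⟨mem_univ _, hb⟩, rfl⟩
    · intro y hy z hyz
      rw [mem_filter] at hy ⊢
      have : Quotient.mk s y = Quotient.mk s z := Quotient.sound hyz
      rw [← this]
      exact ⟨mem_univ _, hy.2⟩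
  have hTU : ∀ x, Nb A x \ cls s x ⊆ univ.filter (fun y => Y (Quotient.mk s x) (Quotient.mk s y)) := by
    intro x y hy
    rw [mem_sdiff, mem_Nb, mem_cls] at hy
    rw [mem_filter]
    refine ⟨mem_univ _, ?_, x, y, rfl, rfl, hy.1⟩
    intro hxy
    exact hy.2 (Quotient.exact hxy)
  have hTc : ∀ x, (Nb A x \ cls s x).card + e = d := by
    intro x
    have := card_split (Nb A x) (cls s x)
    rw [hR x, hex x] at this
    omega
  -- T = U
  have hTk : (Nb A v \ cls s v).card = k * f := by
    have h3 := card_le_card (hTU v)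
    rw [hU v] at h3
    have h4 := hTc v
    set T := (Nb A v \ cls s v).card with hT
    by_contra hne
    have h5 : T + 1 ≤ k * f := by omega
    have h6 : (T + 1) * m ≤ k * f * m := Nat.mul_le_mul_right m h5
    have h7 : (k * m + 1) * f ≤ q * f := Nat.mul_le_mul_right f hH1
    have h8 : (d + 1) * m = (T + 1) * m + e * m := by rw [← h4]; ring
    have h9 : (k * m + 1) * f = k * f * m + f := by ring
    omega
  have hkd : k * f + e = d := by rw [← hTk]; exact hTc v
  have hTeq : ∀ x, Nb A x \ cls s x = univ.filter (fun y => Y (Quotient.mk s x) (Quotient.mk s y)) := by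
    intro x
    apply Finset.eq_of_subset_of_card_le (hTU x)
    rw [hU x]
    have := hTc x
    omega
  have hadj : ∀ x y, A x y ↔ (Y (Quotient.mk s x) (Quotient.mk s y) ∨
      (Quotient.mk s x = Quotient.mk s y ∧ A x y)) := by
    intro x y
    have h3 : y ∈ Nb A x \ cls s x ↔ Y (Quotient.mk s x) (Quotient.mk s y) := by
      rw [hTeq x, mem_filter]
      simp
    rw [mem_sdiff, mem_Nb, mem_cls] at h3
    have h4 : s.r x y ↔ Quotient.mk s x = Quotient.mk s y :=
      ⟨fun h => Quotient.sound h, fun h => Quotient.exact h⟩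
    rw [h4] at h3
    rw [← h3]
    tauto
  -- arithmetic
  obtain ⟨r, hr⟩ : ∃ r, q = k * m + r := ⟨q - k * m, by omega⟩
  have hr1 : 1 ≤ r := by omega
  have hrf : r * f + 2 ≤ (e + 1) * m := by
    have h3 : q * f = k * f * m + r * f := by rw [hr]; ring
    have h4 : (d + 1) * m = k * f * m + (e + 1) * m := by rw [← hkd]; ring
    omega
  have hffr : f ≤ r * f := Nat.le_mul_of_pos_left f hr1
  have hfe : f + 2 ≤ (e + 1) * m := by omega
  have hrm : r + 2 ≤ m := by
    by_contra hcon
    have h3 : m ≤ r + 1 := by omega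
    rcases Nat.eq_zero_or_pos e with he0 | he0
    · rw [he0] at hrf
      have h4 : r * 2 ≤ r * f := Nat.mul_le_mul_left r h2
      omega
    · have h4 : 2 * f ≤ r * f := Nat.mul_le_mul_right f (by omega)
      have h5 : m ≤ e * m := Nat.le_mul_of_pos_left m he0
      have h6 : (e + 1) * m = e * m + m := by ring
      omega
  have hq2 : q + 2 ≤ (k + 1) * m := by
    have : (k + 1) * m = k * m + m := by ring
    omega
  have hqlt : q < Fintype.card V := by
    have h3 : q * 2 ≤ q * f := Nat.mul_le_mul_left q h2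
    omega
  -- both factors are in L
  have hYL : InL Y := IH (Quotient s) hqlt Y hYVT ⟨Quotient.mk s v⟩ k hYR hYNC (Or.inr hq2)
  have hSL : InL (sub A (cls s v)) := by
    refine IH {x // x ∈ cls s v} ?_ _ hsVT ⟨⟨v, self_mem_cls s v⟩⟩ e hsR hsNC (Or.inr ?_)
    · rw [Fintype.card_coe]; exact hlt
    · rw [Fintype.card_coe]; exact hfe
  -- the isomorphism
  have hch : ∀ a : Quotient s, ∃ φ : Equiv.Perm V, IsAut A φ ∧ φ a.out = v := fun a => hVT _ _
  choose φ hφ1 hφ2 using hch
  have hmem : ∀ x, φ (Quotient.mk s x) x ∈ cls s v := by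
    intro x
    rw [mem_cls, ← hφ2 (Quotient.mk s x)]
    apply hs _ (hφ1 _)
    exact Quotient.mk_out x
  let Φ : V → Quotient s × {x // x ∈ cls s v} :=
    fun x => (Quotient.mk s x, ⟨φ (Quotient.mk s x) x, hmem x⟩)
  have hinj : Function.Injective Φ := by
    intro x y hxy
    have h3 : Quotient.mk s x = Quotient.mk s y := congrArg Prod.fst hxy
    have h4 : φ (Quotient.mk s x) x = φ (Quotient.mk s y) y :=
      congrArg (fun p : Quotient s × {x // x ∈ cls s v} => p.2.1) hxy
    rw [h3] at h4
    exact (φ (Quotient.mk s y)).injective h4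
  have hbij : Function.Bijective Φ := by
    rw [Fintype.bijective_iff_injective_and_card]
    refine ⟨hinj, ?_⟩
    rw [Fintype.card_prod, Fintype.card_coe]
    exact hq
  refine InL_iso (Equiv.ofBijective Φ hbij) ?_ (InL_lex hYL hSL)
  intro x y
  rw [hadj x y]
  simp only [lexProd, Equiv.ofBijective_apply, Φ, sub]
  apply or_congr Iff.rfl
  constructor
  · rintro ⟨h3, h4⟩
    refine ⟨h3, ?_⟩
    rw [h3]
    exact (hφ1 _ x y).2 h4
  · rintro ⟨h3, h4⟩
    refine ⟨h3, ?_⟩
    rw [h3] at h4
    exact (hφ1 _ x y).1 h4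

end Part7

section Part8

theorem caseB {V : Type} [Fintype V] {A : V → V → Prop} (hVT : VT A) {d m : ℕ} (hR : Reg A d)
    (hm : 3 ≤ m) (hNC : NC A m) (hn : Fintype.card V + 2 ≤ (d + 1) * m) {κ : ℕ} (hκ : κ < d)
    (hAt : Atomic A κ) (hne : Nonempty V)
    (IH : IHyp (Fintype.card V) m) : InL A := by
  obtain ⟨s, hs, hfr⟩ := hAt
  obtain ⟨v⟩ := hne
  set f := (cls s v).card with hf
  set e := (Nb A v ∩ cls s v).card with he
  have hfx : ∀ x, (cls s x).card = f := fun x => cls_card hs hVT x v
  have hex : ∀ x, (Nb A x ∩ cls s x).card = e := by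
    intro x
    apply VT_const hVT (fun z => Nb A z ∩ cls s z)
    intro φ hφ z
    rw [Nb_image hφ, cls_image hs hφ, image_inter _ _ φ.injective]
  have hq := card_quot s f hfx
  have hH0 := thmH hVT hR (by omega : 2 ≤ m) hNC v
  have hH2 := thmH (sub_VT hs hVT v) (sub_Reg hs hVT v e rfl) (by omega : 2 ≤ m)
    (sub_NC hNC) ⟨v, self_mem_cls s v⟩
  rw [Fintype.card_coe, ← hf] at hH2
  set q := Fintype.card (Quotient s) with hqdef
  have hκx : ∀ x, (C A (cls s x) \ cls s x).card = κ := by
    intro x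
    rw [card_sdiff_of_subset (subset_C A _), (hfr x).2.2]; omega
  have hTsub : ∀ x, Nb A x \ cls s x ⊆ C A (cls s x) \ cls s x := by
    intro x y hy
    rw [mem_sdiff] at hy ⊢
    refine ⟨?_, hy.2⟩
    rw [mem_C]
    exact Or.inr ⟨x, self_mem_cls s x, by simpa using hy.1⟩
  have hTc : ∀ x, (Nb A x \ cls s x).card + e = d := by
    intro x
    have := card_split (Nb A x) (cls s x)
    rw [hR x, hex x] at this
    omega
  obtain ⟨c, hc⟩ : f ∣ κ := by
    rw [← hκx v]; exact block_dvd hVT hs v
  have ht := hTc v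
  set t := (Nb A v \ cls s v).card with htdef
  have htκ : t ≤ κ := by
    rw [← hκx v]; exact card_le_card (hTsub v)
  obtain ⟨mm, hmm⟩ : ∃ mm, κ = t + mm := ⟨κ - t, by omega⟩
  have hmm0 : mm = 0 := by
    -- q ≥ c m + 1
    have h1 : (κ + 1) * m ≤ d * m := Nat.mul_le_mul_right m (by omega)
    have h2 : c * m + 1 ≤ q := by
      by_contra hcon
      have h3 : q * f ≤ c * m * f := Nat.mul_le_mul_right f (by omega)
      have h4 : c * m * f = κ * m := by rw [hc]; ring
      have h5 : (κ + 1) * m = κ * m + m := by ring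
      omega
    have h6 : (c * m + 1) * f ≤ q * f := Nat.mul_le_mul_right f h2
    have h7 : (c * m + 1) * f = κ * m + f := by rw [hc]; ring
    -- n + 2 ≤ (d+1) m, d = κ - mm + e
    have h8 : (d + 1) * m + mm * m = κ * m + e * m + m := by
      have : d + 1 + mm = κ + e + 1 := by omega
      calc (d + 1) * m + mm * m = (d + 1 + mm) * m := by ring
        _ = κ * m + e * m + m := by rw [this]; ring
    by_contra hpos
    have h9 : m ≤ mm * m := Nat.le_mul_of_pos_left m (Nat.pos_of_ne_zero hpos)
    omega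
  have hNeq : ∀ x, Nb A x \ cls s x = C A (cls s x) \ cls s x := by
    intro x
    apply Finset.eq_of_subset_of_card_le (hTsub x)
    rw [hκx x]
    have := hTc x
    omega
  have he1 : 1 ≤ e := by omega
  have hlt : (cls s v).card < Fintype.card V := by
    have h1 := card_star A (cls s v)
    have h2 : 0 < (univ \ C A (cls s v)).card := by
      rw [card_pos, Finset.sdiff_nonempty]
      intro hsub
      exact (hfr v).2.1 (Finset.univ_subset_iff.1 hsub)
    have h3 := card_le_card (subset_C A (cls s v))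
    omega
  refine lex_lemma hVT hR hm hNC hn s hs ?_ v ?_ hlt IH
  · intro x y hxy
    rw [hNeq x, hNeq y, cls_eq s hxy]
  · have : m ≤ e * m := Nat.le_mul_of_pos_left m he1
    omega

end Part8

section Part9

theorem no_two_cycle {V : Type} {A : V → V → Prop} {m : ℕ} (hm : 2 ≤ m) (hNC : NC A m) {x y : V}
    (h1 : A x y) (h2 : A y x) : False := by
  have : Wk A (1 + 1) x x := Wk_add (Wk_one h1) (Wk_one h2)
  exact hNC 2 (by omega) hm x this

theorem caseC {V : Type} [Fintype V] {A : V → V → Prop} (hVT : VT A) {d m : ℕ} (hR : Reg A d)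
    (hm : 3 ≤ m) (hNC : NC A m) (hC : Conn A d) (hd : 1 ≤ d)
    (hex0 : ∃ u w, A u w ∧ ∀ z, A u z → z ≠ w → A w z) : InL A := by
  have hirr : ∀ x, ¬ A x x := fun x => irrefl_of_NC (by omega : 1 ≤ m) hNC x
  have hex : ∀ u, ∃ w, A u w ∧ ∀ z, A u z → z ≠ w → A w z := by
    intro u
    obtain ⟨u0, w0, h1, h2⟩ := hex0
    obtain ⟨φ, h3, h4⟩ := hVT u0 u
    refine ⟨φ w0, ?_, ?_⟩
    · rw [← h4]; exact (h3 _ _).2 h1
    · intro z hz hzw
      rw [← h4] at hz
      have h5 : A u0 (φ.symm z) := by rw [← h3]; simpa using hz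
      have h6 : φ.symm z ≠ w0 := by
        intro he; apply hzw; rw [← he]; simp
      have h7 := (h3 _ _).2 (h2 _ h5 h6)
      simpa using h7
  choose σ hσ1 hσ2 using hex
  have huniq : ∀ u w, A u w → (∀ z, A u z → z ≠ w → A w z) → w = σ u := by
    intro u w h1 h2
    by_contra hne
    exact no_two_cycle (by omega : 2 ≤ m) hNC (h2 _ (hσ1 u) (fun h => hne h.symm))
      (hσ2 u w h1 hne)
  have hcomm : ∀ φ, IsAut A φ → ∀ u, σ (φ u) = φ (σ u) := by
    intro φ hφ u
    symm
    apply huniq
    · exact (hφ _ _).2 (hσ1 u)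
    · intro z hz hzw
      have h5 : A u (φ.symm z) := by rw [← hφ]; simpa using hz
      have h6 : φ.symm z ≠ σ u := by
        intro he; apply hzw; rw [← he]; simp
      have h7 := (hφ _ _).2 (hσ2 u _ h5 h6)
      simpa using h7
  obtain ⟨u0, -, -, -⟩ := hex0
  have hsurj : Function.Surjective σ := by
    intro y
    obtain ⟨φ, h1, h2⟩ := hVT (σ u0) y
    exact ⟨φ u0, by rw [hcomm φ h1, h2]⟩
  have hinj : Function.Injective σ := Finite.injective_iff_surjective.2 hsurj
  -- the period
  set p := Function.minimalPeriod σ u0 with hp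
  have hper : u0 ∈ Function.periodicPts σ := hinj.mem_periodicPts u0
  have hp0 : 0 < p := Function.minimalPeriod_pos_of_mem_periodicPts hper
  have hmod : ∀ k, σ^[k % p] u0 = σ^[k] u0 := fun k => Function.iterate_mod_minimalPeriod_eq
  have hpinj : ∀ i j, i < p → j < p → σ^[i] u0 = σ^[j] u0 → i = j := by
    intro i j hi hj hij
    exact Function.iterate_injOn_Iio_minimalPeriod hi hj hij
  -- the orbit
  set D : Finset V := univ.filter (fun y => ∃ k : ℕ, σ^[k] u0 = y) with hD
  have hDσ : ∀ x ∈ D, σ x ∈ D := by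
    intro x hx
    rw [hD, mem_filter] at hx ⊢
    obtain ⟨_, k, hk⟩ := hx
    refine ⟨mem_univ _, k + 1, ?_⟩
    rw [Function.iterate_succ_apply', hk]
  have hreach : ∀ x ∈ D, ∀ y ∈ D, ∃ k : ℕ, σ^[k] x = y := by
    intro x hx y hy
    rw [hD, mem_filter] at hx hy
    obtain ⟨_, i, hi⟩ := hx
    obtain ⟨_, j, hj⟩ := hy
    refine ⟨j + (p * i - i), ?_⟩
    rw [← hi, ← Function.iterate_add_apply]
    have h1 : i ≤ p * i := Nat.le_mul_of_pos_left i hp0
    have h2 : j + (p * i - i) + i = j + p * i := by omega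
    rw [h2, ← hj, ← hmod (j + p * i), ← hmod j]
    rw [Nat.add_mul_mod_self_left]
  have hconst : ∀ y, y ∉ D → ∀ x ∈ D, A x y → ∀ x' ∈ D, A x' y := by
    intro y hy x hx hxy x' hx'
    obtain ⟨k, hk⟩ := hreach x hx x' hx'
    rw [← hk]
    clear hk
    have : ∀ k, σ^[k] x ∈ D ∧ A (σ^[k] x) y := by
      intro k
      induction k with
      | zero => exact ⟨hx, hxy⟩
      | succ k ih =>
        rw [Function.iterate_succ_apply']
        refine ⟨hDσ _ ih.1, hσ2 _ y ih.2 ?_⟩
        intro he
        apply hy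
        rw [he]
        exact hDσ _ ih.1
    exact (this k).2
  have hu0D : u0 ∈ D := by
    rw [hD, mem_filter]; exact ⟨mem_univ _, 0, rfl⟩
  have hCD : C A D ⊆ D ∪ (Nb A u0).erase (σ u0) := by
    intro y hy
    rw [mem_union]
    by_cases hyD : y ∈ D
    · exact Or.inl hyD
    · right
      rw [mem_C] at hy
      rcases hy with hy | ⟨x, hx, hxy⟩
      · exact absurd hy hyD
      · rw [mem_erase, mem_Nb]
        refine ⟨?_, hconst y hyD x hx hxy u0 hu0D⟩
        intro he
        apply hyD
        rw [he]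
        exact hDσ u0 hu0D
  have hcardC : (C A D).card + 1 ≤ D.card + d := by
    have h1 := card_le_card hCD
    have h2 := card_union_le D ((Nb A u0).erase (σ u0))
    rw [card_erase_of_mem (by rw [mem_Nb]; exact hσ1 u0), hR u0] at h2
    omega
  have hCu : C A D = univ := by
    by_contra hne
    have := hC D ⟨u0, hu0D⟩ hne
    omega
  have hH := thmH hVT hR (by omega : 2 ≤ m) hNC u0
  have hdm : d * 3 ≤ d * m := Nat.mul_le_mul_left d hm
  have hDu : ∀ y, y ∈ D := by
    intro y
    by_contra hy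
    have h1 : y ∈ C A D := by rw [hCu]; exact mem_univ y
    rw [mem_C] at h1
    rcases h1 with h1 | ⟨x, hx, hxy⟩
    · exact hy h1
    · have h2 : D ⊆ Nb (fl A) y := by
        intro x' hx'
        rw [mem_Nb]
        exact hconst y hy x hx hxy x' hx'
      have h3 := card_le_card h2
      rw [Reg_fl hVT hR y] at h3
      rw [hCu, card_univ] at hcardC
      omega
  -- σ is an automorphism
  have hσaut : ∀ x y, A (σ x) (σ y) ↔ A x y := by
    obtain ⟨φ, h1, h2⟩ := hVT u0 (σ u0)
    have h3 : ∀ k, φ (σ^[k] u0) = σ (σ^[k] u0) := by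
      intro k
      induction k with
      | zero => exact h2
      | succ k ih =>
        rw [Function.iterate_succ_apply', ← hcomm φ h1, ih]
    have h4 : ∀ x, φ x = σ x := by
      intro x
      have := hDu x
      rw [hD, mem_filter] at this
      obtain ⟨_, k, hk⟩ := this
      rw [← hk]; exact h3 k
    intro x y
    rw [← h4, ← h4]; exact h1 x y
  have hσit : ∀ k x y, A (σ^[k] x) (σ^[k] y) ↔ A x y := by
    intro k
    induction k with
    | zero => intro x y; exact Iff.rfl
    | succ k ih =>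
      intro x y
      rw [Function.iterate_succ_apply', Function.iterate_succ_apply', hσaut, ih]
  -- the card
  have hcardp : Fintype.card V = p := by
    have : (range p).image (fun k => σ^[k] u0) = univ := by
      ext y
      simp only [mem_image, mem_range, mem_univ, iff_true]
      have := hDu y
      rw [hD, mem_filter] at this
      obtain ⟨_, k, hk⟩ := this
      exact ⟨k % p, Nat.mod_lt _ hp0, by rw [hmod]; exact hk⟩
    rw [← card_univ, ← this, card_image_of_injOn, card_range]
    intro i hi j hj hij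
    simp only [coe_range, Set.mem_Iio] at hi hj
    exact hpinj i j hi hj hij
  -- down-closedness
  have hdown : ∀ k, k < p → A u0 (σ^[k] u0) → ∀ i, 1 ≤ i → i ≤ k → A u0 (σ^[i] u0) := by
    intro k
    induction k with
    | zero => intro _ _ i hi1 hi2; omega
    | succ k ih =>
      intro hk hA i hi1 hi2
      rcases Nat.eq_or_lt_of_le hi2 with he | hlt
      · rw [he]; exact hA
      · apply ih (by omega) ?_ i hi1 (by omega)
        have h1 : σ^[k + 1] u0 ≠ σ u0 := by
          intro he
          have := hpinj (k + 1) 1 hk (by omega) he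
          omega
        have h2 := hσ2 u0 _ hA h1
        rw [Function.iterate_succ_apply'] at h2
        exact (hσaut _ _).1 h2
  have hrep : ∀ y, A u0 y → ∃ k, 1 ≤ k ∧ k < p ∧ σ^[k] u0 = y := by
    intro y hy
    have := hDu y
    rw [hD, mem_filter] at this
    obtain ⟨_, k, hk⟩ := this
    refine ⟨k % p, ?_, Nat.mod_lt _ hp0, by rw [hmod]; exact hk⟩
    by_contra h0
    have h1 : k % p = 0 := by omega
    have h2 := hmod k
    rw [h1, hk] at h2
    have h3 : u0 = y := h2
    rw [← h3] at hy
    exact hirr _ hy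
  have hle : ∀ k, k < p → A u0 (σ^[k] u0) → k ≤ d := by
    intro k hk hA
    have h1 : (Icc 1 k).image (fun i => σ^[i] u0) ⊆ Nb A u0 := by
      intro y hy
      rw [mem_image] at hy
      obtain ⟨i, hi, rfl⟩ := hy
      rw [mem_Icc] at hi
      rw [mem_Nb]
      exact hdown k hk hA i hi.1 hi.2
    have h2 := card_le_card h1
    rw [hR u0, card_image_of_injOn, Nat.card_Icc] at h2
    · omega
    · intro i hi j hj hij
      simp only [coe_Icc, Set.mem_Icc] at hi hj
      exact hpinj i j (by omega) (by omega) hij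
  have hge : ∀ k, 1 ≤ k → k ≤ d → A u0 (σ^[k] u0) := by
    intro k hk1 hk2
    by_contra hA
    have h1 : Nb A u0 ⊆ (Ico 1 k).image (fun i => σ^[i] u0) := by
      intro y hy
      rw [mem_Nb] at hy
      obtain ⟨i, hi1, hi2, rfl⟩ := hrep y hy
      rw [mem_image]
      refine ⟨i, ?_, rfl⟩
      rw [mem_Ico]
      refine ⟨hi1, ?_⟩
      by_contra hik
      exact hA (hdown i hi2 hy k hk1 (by omega))
    have h2 := card_le_card h1
    have h3 : ((Ico 1 k).image (fun i => σ^[i] u0)).card ≤ (Ico 1 k).card := card_image_le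
    rw [hR u0] at h2
    rw [Nat.card_Ico] at h3
    omega
  have hpd : d < p := by omega
  have : NeZero p := ⟨by omega⟩
  let θ : ZMod p → V := fun i => σ^[i.val] u0
  have hθ : Function.Bijective θ := by
    constructor
    · intro i j hij
      apply ZMod.val_injective p
      exact hpinj _ _ (ZMod.val_lt i) (ZMod.val_lt j) hij
    · intro y
      have := hDu y
      rw [hD, mem_filter] at this
      obtain ⟨_, k, hk⟩ := this
      refine ⟨(k : ZMod p), ?_⟩
      simp only [θ]
      rw [ZMod.val_natCast, hmod]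
      exact hk
  have hkey : ∀ x y : ZMod p, circ p d x y ↔ A (θ x) (θ y) := by
    intro x y
    have h1 : θ y = σ^[x.val] (σ^[(y - x).val] u0) := by
      simp only [θ]
      rw [← Function.iterate_add_apply, ← hmod (x.val + (y - x).val)]
      congr 1
      have : y = x + (y - x) := by ring
      conv_lhs => rw [this, ZMod.val_add]
    rw [h1]
    simp only [θ]
    rw [hσit]
    constructor
    · rintro ⟨k, hk1, hk2, hk3⟩
      have : (y - x).val = k := by
        rw [hk3, add_sub_cancel_left, ZMod.val_natCast, Nat.mod_eq_of_lt (by omega)]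
      rw [this]
      exact hge k hk1 hk2
    · intro hA
      refine ⟨(y - x).val, ?_, hle _ (ZMod.val_lt _) hA, ?_⟩
      · by_contra h0
        have h2 : (y - x).val = 0 := by omega
        rw [h2] at hA
        exact hirr _ hA
      · rw [ZMod.natCast_zmod_val]; ring
  refine InL_iso (Equiv.ofBijective θ hθ).symm ?_ (InL_circ p d hpd)
  intro x y
  rw [hkey]
  have e1 : θ ((Equiv.ofBijective θ hθ).symm x) = x := Equiv.ofBijective_apply_symm_apply θ hθ x
  have e2 : θ ((Equiv.ofBijective θ hθ).symm y) = y := Equiv.ofBijective_apply_symm_apply θ hθ y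
  rw [e1, e2]

end Part9

section Part10

theorem Ball_image {V : Type} [Fintype V] {A : V → V → Prop} {φ : Equiv.Perm V} (h : IsAut A φ)
    (j : ℕ) (x : V) : Ball A j (φ x) = (Ball A j x).image φ := by
  induction j with
  | zero => simp [Ball]
  | succ j ih => rw [Ball_succ, Ball_succ, ih, C_image h]

theorem exists_j {V : Type} [Fintype V] {A : V → V → Prop} (hVT : VT A) {d m : ℕ} (hR : Reg A d)
    (hm : 3 ≤ m) (hNC : NC A m) (hn : Fintype.card V + 2 ≤ (d + 1) * m) (hne : Nonempty V) :
    ∃ j, 1 ≤ j ∧ j + 2 ≤ m ∧ ∀ v, (Ball A (j + 1) v).card ≤ (Ball A j v).card + d := by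
  obtain ⟨v⟩ := hne
  have hconst : ∀ j x, (Ball A j x).card = (Ball A j v).card := by
    intro j x
    exact VT_const hVT (Ball A j) (fun φ hφ x => Ball_image hφ j x) x v
  by_contra hcon
  push Not at hcon
  have hstep : ∀ j, 1 ≤ j → j + 2 ≤ m → (Ball A j v).card + (d + 1) ≤ (Ball A (j + 1) v).card := by
    intro j h1 h2
    obtain ⟨x, hx⟩ := hcon j h1 h2
    rw [hconst j x, hconst (j + 1) x] at hx
    omega
  have h1 : ∀ j, 1 ≤ j → j + 1 ≤ m → (d + 1) * j ≤ (Ball A j v).card := by
    intro j hj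
    induction j, hj using Nat.le_induction with
    | base =>
      intro _
      rw [Ball_one, card_C_singleton hR v (irrefl_of_NC (by omega) hNC v)]
      omega
    | succ j hj ih =>
      intro hjm
      have h2 := ih (by omega)
      have h3 := hstep j hj (by omega)
      have h4 : (d + 1) * (j + 1) = (d + 1) * j + (d + 1) := by ring
      omega
  have h2 := h1 (m - 1) (by omega) (by omega)
  have h3 : Disjoint (Ball A (m - 1) v) (Nb (fl A) v) := by
    rw [Finset.disjoint_left]
    intro y hy hy2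
    rw [mem_Nb] at hy2
    exact NC_ball hNC (by omega) hy hy2
  have h4 := card_disj h3
  rw [Reg_fl hVT hR v] at h4
  have h5 : (d + 1) * m = (d + 1) * (m - 1) + (d + 1) := by
    obtain ⟨k, rfl⟩ : ∃ k, m = k + 1 := ⟨m - 1, by omega⟩
    simp only [Nat.add_sub_cancel]
    ring
  omega

/-- 2-fragments -/
def Fr2 {V : Type} [Fintype V] (A : V → V → Prop) (d : ℕ) (F : Finset V) : Prop :=
  2 ≤ F.card ∧ 2 ≤ (univ \ C A F).card ∧ (C A F).card ≤ F.card + d

theorem Fr2_star {V : Type} [Fintype V] {A : V → V → Prop} {d : ℕ} {F : Finset V}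
    (hF : Fr2 A d F) : Fr2 (fl A) d (univ \ C A F) := by
  obtain ⟨h1, h2, h3⟩ := hF
  have hd := disj_C_fl A F
  have h5 := card_disj hd
  have h6 := card_star A F
  refine ⟨h2, ?_, by omega⟩
  have : F ⊆ univ \ C (fl A) (univ \ C A F) := by
    intro x hx
    rw [mem_sdiff]
    exact ⟨mem_univ _, fun h => Finset.disjoint_left.1 hd h hx⟩
  have := card_le_card this
  omega

theorem atom2 {V : Type} [Fintype V] {A : V → V → Prop} {d m : ℕ} (hVT : VT A) (hR : Reg A d)
    (hm : 3 ≤ m) (hNC : NC A m) (hC : Conn A d) (hd : 2 ≤ d) {j : ℕ} (hj1 : 1 ≤ j)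
    (hj2 : j + 2 ≤ m) (hj : ∀ v, (Ball A (j + 1) v).card ≤ (Ball A j v).card + d)
    (a : ℕ) (L : Finset V) (hL : Fr2 A d L) (hLa : L.card = a)
    (hmin : ∀ F, Fr2 A d F → a ≤ F.card) (hmin' : ∀ F, Fr2 (fl A) d F → a ≤ F.card) :
    a = 2 := by
  have hirr : ∀ x, ¬ A x x := fun x => irrefl_of_NC (by omega : 1 ≤ m) hNC x
  have ha2 : 2 ≤ a := by rw [← hLa]; exact hL.1
  have hBfr : ∀ x, Fr2 A d (Ball A j x) := by
    intro x
    refine ⟨?_, ?_, by rw [← Ball_succ]; exact hj x⟩
    · have h1 := card_le_card (Ball_mono A hj1 x)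
      rw [Ball_one, card_C_singleton hR x (hirr x)] at h1
      omega
    · rw [← Ball_succ]
      have h1 : Nb (fl A) x ⊆ univ \ Ball A (j + 1) x := by
        intro y hy
        rw [mem_Nb] at hy
        rw [mem_sdiff]
        exact ⟨mem_univ _, fun h => NC_ball hNC (by omega) h hy⟩
      have h2 := card_le_card h1
      rw [Reg_fl hVT hR x] at h2
      omega
  have hdich : ∀ x ∈ L, L ⊆ Ball A j x ∨ (Ball A j x ∩ L).card ≤ 1 := by
    intro x hx
    by_contra hcon
    rw [not_or] at hcon
    obtain ⟨hnsub, hcard⟩ := hcon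
    have hZ := hmin' _ (Fr2_star (hBfr x))
    have hx1 : (C A {x}).card = d + 1 := card_C_singleton hR x (hirr x)
    have hnu : C A (Ball A j x ∪ L) ≠ univ := by
      intro he
      have h1 : univ \ C A (Ball A j x) ⊆ C A L \ C A {x} := by
        intro y hy
        rw [mem_sdiff] at hy ⊢
        have h2 : y ∈ C A (Ball A j x ∪ L) := by rw [he]; exact mem_univ y
        rw [C_union, mem_union] at h2
        rcases h2 with h2 | h2
        · exact absurd h2 hy.2
        · refine ⟨h2, ?_⟩
          intro h3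
          apply hy.2
          have h4 : C A {x} ⊆ C A (Ball A j x) := by
            apply C_mono
            intro z hz
            rw [mem_singleton] at hz
            rw [hz]; exact self_mem_Ball A j x
          exact h4 h3
      have h2 := card_le_card h1
      have h3 : C A {x} ⊆ C A L := C_mono A (by
        intro z hz
        rw [mem_singleton] at hz
        rw [hz]; exact hx)
      rw [card_sdiff_of_subset h3] at h2
      have h4 := hL.2.2
      omega
    have h1 := hC (Ball A j x ∪ L) ⟨x, mem_union_right _ hx⟩ hnu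
    have h2 := submod A (Ball A j x) L
    have h3 := hL.2.2
    have h4 := (hBfr x).2.2
    have h5 := card_union_add_card_inter (Ball A j x) L
    have h6 : Fr2 A d (Ball A j x ∩ L) := by
      refine ⟨by omega, ?_, by omega⟩
      have h7 : univ \ C A L ⊆ univ \ C A (Ball A j x ∩ L) := by
        apply sdiff_subset_sdiff (Finset.Subset.refl _)
        exact C_mono A inter_subset_right
      have := card_le_card h7
      have := hL.2.1
      omega
    have h7 := hmin _ h6
    have h8 : Ball A j x ∩ L = L := Finset.eq_of_subset_of_card_le inter_subset_right (by omega)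
    apply hnsub
    rw [← h8]
    exact inter_subset_left
  by_contra hne
  have ha3 : 3 ≤ a := by omega
  -- every vertex of L has an in-neighbour in L
  have hin : ∀ x ∈ L, ∃ y ∈ L, A y x := by
    intro x hx
    have hP : (L.erase x).card = a - 1 := by rw [card_erase_of_mem hx, hLa]
    have hnf : ¬ Fr2 A d (L.erase x) := by
      intro h
      have := hmin _ h
      omega
    have h1 : a + d ≤ (C A (L.erase x)).card := by
      by_contra hcon
      apply hnf
      refine ⟨by omega, ?_, by omega⟩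
      have h7 : univ \ C A L ⊆ univ \ C A (L.erase x) := by
        apply sdiff_subset_sdiff (Finset.Subset.refl _)
        exact C_mono A (erase_subset _ _)
      have := card_le_card h7
      have := hL.2.1
      omega
    have h2 : C A (L.erase x) = C A L := by
      apply Finset.eq_of_subset_of_card_le (C_mono A (erase_subset _ _))
      have := hL.2.2
      omega
    have h3 : x ∈ C A (L.erase x) := by rw [h2]; exact subset_C A L hx
    rw [mem_C] at h3
    rcases h3 with h3 | ⟨y, hy, hyx⟩
    · exact absurd h3 (by simp)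
    · exact ⟨y, (mem_erase.1 hy).2, hyx⟩
  have hsmall : ∀ x ∈ L, (Ball A j x ∩ L).card ≤ 1 := by
    intro x hx
    rcases hdich x hx with h | h
    · exfalso
      obtain ⟨y, hy, hyx⟩ := hin x hx
      exact NC_ball hNC (by omega) (h hy) hyx
    · exact h
  obtain ⟨x, hx⟩ : L.Nonempty := by
    rw [← card_pos]; omega
  obtain ⟨y, hy, hyx⟩ := hin x hx
  have h1 := hsmall y hy
  rw [card_le_one] at h1
  have h2 : x ∈ Ball A j y := by
    apply Ball_mono A hj1 y
    rw [Ball_one, mem_C]
    exact Or.inr ⟨y, mem_singleton_self y, hyx⟩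
  have h3 := h1 x (mem_inter.2 ⟨h2, hx⟩) y (mem_inter.2 ⟨self_mem_Ball A j y, hy⟩)
  rw [h3] at hyx
  exact hirr y hyx

theorem pair_aux {V : Type} [Fintype V] {A : V → V → Prop} {d : ℕ} (hR : Reg A d)
    (hirr : ∀ x, ¬ A x x) {u w : V} (huw : u ≠ w) (hcard : (C A {u, w}).card ≤ d + 2)
    (hwu : ¬ A w u) : ∀ z, A u z → z = w ∨ A w z := by
  have h1 : insert u (C A {w}) ⊆ C A {u, w} := by
    intro y hy
    rw [mem_insert] at hy
    rcases hy with rfl | hy
    · exact subset_C A _ (by simp)
    · exact C_mono A (by simp) hy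
  have hu : u ∉ C A {w} := by
    rw [mem_C]
    rintro (h | ⟨x, hx, hxu⟩)
    · rw [mem_singleton] at h; exact huw h
    · rw [mem_singleton] at hx; subst hx; exact hwu hxu
  have h2 : insert u (C A {w}) = C A {u, w} := by
    apply Finset.eq_of_subset_of_card_le h1
    rw [card_insert_of_notMem hu, card_C_singleton hR w (hirr w)]
    omega
  intro z hz
  have h3 : z ∈ C A {u, w} := by
    rw [mem_C]; exact Or.inr ⟨u, by simp, hz⟩
  rw [← h2, mem_insert, mem_C] at h3
  rcases h3 with h3 | h3 | ⟨x, hx, hxz⟩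
  · rw [h3] at hz; exact absurd hz (hirr u)
  · left; simpa using h3
  · right; rw [mem_singleton] at hx; rw [← hx]; exact hxz

/-- conclusion of the 2-atom analysis -/
def Alt {V : Type} [Fintype V] (A : V → V → Prop) : Prop :=
  (∃ u w, u ≠ w ∧ Nb A u = Nb A w) ∨ (∃ u w, A u w ∧ ∀ z, A u z → z ≠ w → A w z)

theorem alt_of_atom {V : Type} [Fintype V] {A : V → V → Prop} {d m : ℕ} (hVT : VT A)
    (hR : Reg A d) (hm : 3 ≤ m) (hNC : NC A m) (hC : Conn A d) (hd : 2 ≤ d) {j : ℕ} (hj1 : 1 ≤ j)
    (hj2 : j + 2 ≤ m) (hj : ∀ v, (Ball A (j + 1) v).card ≤ (Ball A j v).card + d)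
    (a : ℕ) (L : Finset V) (hL : Fr2 A d L) (hLa : L.card = a)
    (hmin : ∀ F, Fr2 A d F → a ≤ F.card) (hmin' : ∀ F, Fr2 (fl A) d F → a ≤ F.card) :
    Alt A := by
  have hirr : ∀ x, ¬ A x x := fun x => irrefl_of_NC (by omega : 1 ≤ m) hNC x
  have ha := atom2 hVT hR hm hNC hC hd hj1 hj2 hj a L hL hLa hmin hmin'
  rw [ha, card_eq_two] at hLa
  obtain ⟨u, w, huw, rfl⟩ := hLa
  have hcard : (C A {u, w}).card ≤ d + 2 := by
    have h1 := hL.2.2
    rw [card_pair huw] at h1
    omega
  have main : ∀ u w : V, u ≠ w → (C A {u, w}).card ≤ d + 2 → ¬ A w u → Alt A := by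
    intro u w huw hcard hwu
    have h1 := pair_aux hR hirr huw hcard hwu
    by_cases huw2 : A u w
    · right
      refine ⟨u, w, huw2, ?_⟩
      intro z hz hzw
      rcases h1 z hz with h | h
      · exact absurd h hzw
      · exact h
    · left
      refine ⟨u, w, huw, ?_⟩
      apply Finset.eq_of_subset_of_card_le
      · intro z hz
        rw [mem_Nb] at hz ⊢
        rcases h1 z hz with h | h
        · rw [h] at hz; exact absurd hz huw2
        · exact h
      · rw [hR u, hR w]
  by_cases hwu : A w u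
  · have huw2 : ¬ A u w := fun h => no_two_cycle (by omega : 2 ≤ m) hNC h hwu
    exact main w u huw.symm (by rw [pair_comm]; exact hcard) huw2
  · exact main u w huw hcard hwu

theorem caseA_alt {V : Type} [Fintype V] {A : V → V → Prop} {d m : ℕ} (hVT : VT A)
    (hR : Reg A d) (hm : 3 ≤ m) (hNC : NC A m) (hn : Fintype.card V + 2 ≤ (d + 1) * m)
    (hne : Nonempty V) (hC : Conn A d) (hd : 2 ≤ d) : Alt A ∨ Alt (fl A) := by
  have hirr : ∀ x, ¬ A x x := fun x => irrefl_of_NC (by omega : 1 ≤ m) hNC x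
  obtain ⟨j, hj1, hj2, hj⟩ := exists_j hVT hR hm hNC hn hne
  obtain ⟨j', hj1', hj2', hj'⟩ := exists_j (VT_fl hVT) (Reg_fl hVT hR) hm (NC_fl hNC) hn hne
  obtain ⟨v⟩ := hne
  have hBfr : Fr2 A d (Ball A j v) := by
    refine ⟨?_, ?_, by rw [← Ball_succ]; exact hj v⟩
    · have h1 := card_le_card (Ball_mono A hj1 v)
      rw [Ball_one, card_C_singleton hR v (hirr v)] at h1
      omega
    · rw [← Ball_succ]
      have h1 : Nb (fl A) v ⊆ univ \ Ball A (j + 1) v := by
        intro y hy
        rw [mem_Nb] at hy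
        rw [mem_sdiff]
        exact ⟨mem_univ _, fun h => NC_ball hNC (by omega) h hy⟩
      have h2 := card_le_card h1
      rw [Reg_fl hVT hR v] at h2
      omega
  have hexa : ∃ a, (∃ F, Fr2 A d F ∧ F.card = a) ∨ (∃ F, Fr2 (fl A) d F ∧ F.card = a) :=
    ⟨_, Or.inl ⟨_, hBfr, rfl⟩⟩
  have hspec := Nat.find_spec hexa
  have hmin1 : ∀ F, Fr2 A d F → Nat.find hexa ≤ F.card :=
    fun F hF => Nat.find_min' hexa (Or.inl ⟨F, hF, rfl⟩)
  have hmin2 : ∀ F, Fr2 (fl A) d F → Nat.find hexa ≤ F.card :=
    fun F hF => Nat.find_min' hexa (Or.inr ⟨F, hF, rfl⟩)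
  rcases hspec with ⟨L, hL, hLa⟩ | ⟨L, hL, hLa⟩
  · exact Or.inl (alt_of_atom hVT hR hm hNC hC hd hj1 hj2 hj _ L hL hLa hmin1 hmin2)
  · exact Or.inr (alt_of_atom (VT_fl hVT) (Reg_fl hVT hR) hm (NC_fl hNC) (Conn_fl A d hC) hd
      hj1' hj2' hj' _ L hL hLa hmin2 hmin1)

theorem twins {V : Type} [Fintype V] {A : V → V → Prop} (hVT : VT A) {d m : ℕ} (hR : Reg A d)
    (hm : 3 ≤ m) (hNC : NC A m) (hn : Fintype.card V + 2 ≤ (d + 1) * m) (hd : 1 ≤ d)
    (h : ∃ u w, u ≠ w ∧ Nb A u = Nb A w) (IH : IHyp (Fintype.card V) m) : InL A := by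
  have hirr : ∀ x, ¬ A x x := fun x => irrefl_of_NC (by omega : 1 ≤ m) hNC x
  obtain ⟨u, w, huw, hNuw⟩ := h
  let s : Setoid V :=
    { r := fun x y => Nb A x = Nb A y
      iseqv := ⟨fun _ => rfl, fun h => h.symm, fun h1 h2 => h1.trans h2⟩ }
  have hs : Inv A s := by
    intro φ hφ x y hxy
    have hxy' : Nb A x = Nb A y := hxy
    show Nb A (φ x) = Nb A (φ y)
    rw [Nb_image hφ, Nb_image hφ, hxy']
  refine lex_lemma hVT hR hm hNC hn s hs ?_ u ?_ ?_ IH
  · intro x y hxy
    have hxy' : Nb A x = Nb A y := hxy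
    rw [cls_eq s hxy, hxy']
  · have h1 : ({u, w} : Finset V) ⊆ cls s u := by
      intro z hz
      rw [mem_insert, mem_singleton] at hz
      rw [mem_cls]
      rcases hz with rfl | rfl
      · exact s.refl _
      · exact hNuw
    have h2 := card_le_card h1
    rw [card_pair huw] at h2
    exact h2
  · obtain ⟨z, hz⟩ : (Nb A u).Nonempty := by
      rw [← card_pos, hR u]; omega
    rw [← card_univ]
    apply card_lt_card
    rw [Finset.ssubset_univ_iff]
    intro he
    have h1 : z ∈ cls s u := by rw [he]; exact mem_univ z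
    rw [mem_cls] at h1
    have h2 : Nb A u = Nb A z := h1
    rw [h2, mem_Nb] at hz
    exact hirr z hz

theorem main_aux (m : ℕ) (hm : 3 ≤ m) : ∀ n, IHyp n m := by
  intro n
  induction n with
  | zero => intro W _ h; exact absurd h (Nat.not_lt_zero _)
  | succ n ih =>
    intro V _ hlt A hVT hne d hR hNC hor
    by_cases hlt' : Fintype.card V < n
    · exact ih V hlt' A hVT hne d hR hNC hor
    have hcard : Fintype.card V = n := by omega
    rw [← hcard] at ih
    by_cases hd0 : d = 0
    · apply InL_empty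
      intro x y hxy
      have h1 := hR x
      rw [hd0, card_eq_zero] at h1
      have : y ∈ Nb A x := by rw [mem_Nb]; exact hxy
      rw [h1] at this
      simp at this
    have hn : Fintype.card V + 2 ≤ (d + 1) * m := by
      rcases hor with h | h
      · exact absurd h hd0
      · exact h
    have hirr : ∀ x, ¬ A x x := fun x => irrefl_of_NC (by omega : 1 ≤ m) hNC x
    by_cases hcon : Conn A d
    · by_cases hd1 : d = 1
      · obtain ⟨u⟩ := hne
        refine caseC hVT hR hm hNC hcon (by omega) ?_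
        obtain ⟨w, hw⟩ : (Nb A u).Nonempty := by
          rw [← card_pos, hR u]; omega
        refine ⟨u, w, by simpa using hw, ?_⟩
        intro z hz hzw
        exfalso
        have h1 := hR u
        rw [hd1, card_eq_one] at h1
        obtain ⟨c, hc⟩ := h1
        rw [hc, mem_singleton] at hw
        have h2 : z ∈ Nb A u := by rw [mem_Nb]; exact hz
        rw [hc, mem_singleton] at h2
        exact hzw (by rw [h2, hw])
      · rcases caseA_alt hVT hR hm hNC hn hne hcon (by omega) with (h | h) | (h | h)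
        · exact twins hVT hR hm hNC hn (by omega) h ih
        · exact caseC hVT hR hm hNC hcon (by omega) h
        · have h1 : InL (fl A) :=
            twins (VT_fl hVT) (Reg_fl hVT hR) hm (NC_fl hNC) hn (by omega) h ih
          exact InL_fl h1
        · have h1 : InL (fl A) :=
            caseC (VT_fl hVT) (Reg_fl hVT hR) hm (NC_fl hNC) (Conn_fl A d hcon) (by omega) h
          exact InL_fl h1
    · obtain ⟨κ, hκ, hC, hAt | hAt⟩ := dichotomy hVT d hcon
      · exact caseB hVT hR hm hNC hn hκ hAt hne ih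
      · have h1 : InL (fl A) :=
          caseB (VT_fl hVT) (Reg_fl hVT hR) hm (NC_fl hNC) hn hκ hAt hne ih
        exact InL_fl h1

/-- main theorem, in terms of `m = g - 1` -/
theorem main_thm {V : Type} [Fintype V] [Nonempty V] {A : V → V → Prop} (hVT : VT A) {d m : ℕ}
    (hR : Reg A d) (hm : 3 ≤ m) (hNC : NC A m) (hL : ¬ InL A) :
    (d + 1) * m ≤ Fintype.card V + 1 := by
  by_contra hcon
  apply hL
  exact main_aux m hm (Fintype.card V + 1) V (Nat.lt_succ_self _) A hVT inferInstance d hR hNC
    (Or.inr (by omega))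

end Part10

section Part11

theorem Wk_seq {V : Type} {A : V → V → Prop} {k : ℕ} {x y : V} (h : Wk A k x y) :
    ∃ c : ℕ → V, c 0 = x ∧ c k = y ∧ ∀ i, i < k → A (c i) (c (i + 1)) := by
  induction k generalizing y with
  | zero => exact ⟨fun _ => x, rfl, h, fun i hi => absurd hi (Nat.not_lt_zero i)⟩
  | succ k ih =>
    obtain ⟨z, hz, hzy⟩ := h
    obtain ⟨c, h1, h2, h3⟩ := ih hz
    refine ⟨fun i => if i ≤ k then c i else y, ?_, ?_, ?_⟩
    · simp [h1]
    · simp
    · intro i hi
      by_cases hik : i + 1 ≤ k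
      · have : i ≤ k := by omega
        simp only [this, hik, if_true]
        exact h3 i (by omega)
      · have hik' : i = k := by omega
        subst hik'
        simp only [le_refl, if_true, hik, if_false]
        rw [h2]; exact hzy

theorem Wk_of_seq {V : Type} {A : V → V → Prop} (c : ℕ → V) (k : ℕ)
    (h : ∀ i, i < k → A (c i) (c (i + 1))) (i j : ℕ) (hij : i ≤ j) (hj : j ≤ k) :
    Wk A (j - i) (c i) (c j) := by
  induction j, hij using Nat.le_induction with
  | base => rw [Nat.sub_self]; rfl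
  | succ j hij ih =>
    have h1 := ih (by omega)
    have h2 : j + 1 - i = (j - i) + 1 := by omega
    rw [h2]
    exact ⟨c j, h1, h j (by omega)⟩

theorem NC_of_girth {V : Type} {A : V → V → Prop} {g : ℕ} (h : IsGirth A g) : NC A (g - 1) := by
  by_contra hcon
  have hex : ∃ k, 1 ≤ k ∧ k ≤ g - 1 ∧ ∃ v, Wk A k v v := by
    unfold NC at hcon
    push Not at hcon
    exact hcon
  have hspec := Nat.find_spec hex
  have hmin : ∀ k, k < Nat.find hex → ¬ (1 ≤ k ∧ k ≤ g - 1 ∧ ∃ v, Wk A k v v) :=
    fun k hk => Nat.find_min hex hk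
  set k := Nat.find hex with hk
  obtain ⟨hk1, hkg, v, hv⟩ := hspec
  obtain ⟨c, hc0, hck, hc⟩ := Wk_seq hv
  have hinj : ∀ i j, i < j → j < k → c i ≠ c j := by
    intro i j hij hjk he
    have h1 := Wk_of_seq c k hc i j (by omega) (by omega)
    rw [← he] at h1
    exact hmin (j - i) (by omega) ⟨by omega, by omega, c i, h1⟩
  have hcyc : HasCycle A k := by
    refine ⟨by omega, fun i => c i.val, ?_, ?_⟩
    · have : NeZero k := ⟨by omega⟩
      intro i j hij
      apply ZMod.val_injective k
      have hi := ZMod.val_lt i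
      have hj := ZMod.val_lt j
      rcases lt_trichotomy i.val j.val with h1 | h1 | h1
      · exact absurd hij (hinj _ _ h1 hj)
      · exact h1
      · exact absurd hij.symm (hinj _ _ h1 hi)
    · intro i
      have : NeZero k := ⟨by omega⟩
      have hi := ZMod.val_lt i
      have h2 : (i + 1).val = (i.val + 1) % k := by
        rcases Nat.eq_or_lt_of_le hk1 with h1 | h1
        · -- k = 1
          have h3 : (i + 1).val < k := ZMod.val_lt _
          have h4 : (i.val + 1) % k < k := Nat.mod_lt _ (by omega)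
          omega
        · have : Fact (1 < k) := ⟨h1⟩
          rw [ZMod.val_add, ZMod.val_one]
      show A (c i.val) (c (i + 1).val)
      rw [h2]
      by_cases h3 : i.val + 1 < k
      · rw [Nat.mod_eq_of_lt h3]
        exact hc _ hi
      · have h4 : i.val + 1 = k := by omega
        rw [h4, Nat.mod_self, hc0, ← hck]
        have := hc _ hi
        rw [h4] at this
        exact this
  have h1 := h.2 hcyc
  omega

/-- Every finite vertex-transitive digraph `X` with out-degree `d` and girth `g > 3` that is not in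
the class `L` has at least `(d+1)(g-1)-1` vertices. -/
theorem result (V : Type) [Fintype V] (X : Arcs V) (d g : ℕ)
    (hX : VertexTransitive X) (hd : ∀ v, outdeg X v = d) (hg : IsGirth X g) (h3 : 3 < g)
    (hL : ¬ InL X) : (d + 1) * (g - 1) - 1 ≤ Fintype.card V := by
  have hNC := NC_of_girth hg
  have : Nonempty V := by
    obtain ⟨hpos, c, -, -⟩ := hg.1
    exact ⟨c 0⟩
  have hR : Reg X d := by
    intro v
    rw [← hd v, outdeg, ← Set.ncard_coe_finset]
    congr 1
    ext w
    simp
  have h := main_thm (A := X) hX hR (by omega : 3 ≤ g - 1) hNC hL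
  omega

end Part11

end Pool.Agent.Results.MP_81f9fb_co.GirthBound
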